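import Mathlib

/-!
# Convex-cyclicity is not preserved under `T ↦ -T`: definitions of the statement
-/

namespace Pool.H88.MV.ConvexCyclicNeg

/-- A bounded operator `T` on a complex Hilbert space is convex-cyclic if for some vector `x` the convex hull
of the orbit `x, T x, T² x, ...` is dense. -/
def IsConvexCyclic {H : Type*} [NormedAddCommGroup H] [InnerProductSpace ℂ H] (T : H →L[ℂ] H) : Prop :=
  ∃ x : H, Dense (convexHull ℝ (Set.range fun n : ℕ => (T ^ n) x))

/-- The assertion that for every convex-cyclic operator `T` on the complex Hilbert space `H`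
the operator `-T` is convex-cyclic as well. -/
def NegPreservesConvexCyclic (H : Type*) [NormedAddCommGroup H] [InnerProductSpace ℂ H] : Prop :=
  ∀ T : H →L[ℂ] H, IsConvexCyclic T → IsConvexCyclic (-T)

end Pool.H88.MV.ConvexCyclicNeg
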