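import Mathlib
import Pool.Agent.H88.MV.ConvexCyclicNegDefs

/-!
# Convex-cyclicity is not preserved under `T ↦ -T`: the proof
-/

namespace Pool.H88.MV.ConvexCyclicNeg

section PartA

open Polynomial Filter Topology

namespace A

/-- truncated binomial series of `(1-X)^{-a}` -/
noncomputable def P (a K : ℕ) : ℝ[X] := ∑ k ∈ Finset.range (K + 1), C ((Nat.choose (a + k - 1) k : ℕ) : ℝ) * X ^ k

lemma P_zero (K : ℕ) : P 0 K = 1 := by
  unfold P
  rw [Finset.sum_range_succ']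
  simp only [zero_add, Nat.add_sub_cancel]
  have : ∀ k ∈ Finset.range K, C ((Nat.choose k (k+1) : ℕ) : ℝ) * X ^ (k+1) = 0 := by
    intro k _
    simp
  rw [Finset.sum_eq_zero this]
  simp

lemma P_succ (a K : ℕ) : (1 - X) * P (a + 1) K = P a K - C ((Nat.choose (a + K) K : ℕ) : ℝ) * X ^ (K + 1) := by
  unfold P
  induction K with
  | zero => simp
  | succ K ih =>
    rw [Finset.sum_range_succ, mul_add, ih, Finset.sum_range_succ _ (K+1)]
    have h1 : a + 1 + (K + 1) - 1 = a + K + 1 := by omega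
    have h2 : a + (K + 1) - 1 = a + K := by omega
    have h3 : a + (K + 1) = a + K + 1 := by omega
    rw [h1, h2, h3]
    have h4 : Nat.choose (a + K + 1) (K + 1) = Nat.choose (a + K) K + Nat.choose (a + K) (K + 1) := Nat.choose_succ_succ _ _
    rw [h4]
    push_cast
    simp only [C_add]
    ring

lemma P_main (a K : ℕ) : (1 - X) ^ a * P a K =
    1 - X ^ (K + 1) * ∑ j ∈ Finset.range a, C ((Nat.choose (j + K) K : ℕ) : ℝ) * (1 - X) ^ j := by
  induction a with
  | zero => simp [P_zero]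
  | succ a ih =>
    rw [pow_succ, mul_assoc, P_succ, mul_sub, ih, Finset.sum_range_succ]
    ring

variable {H : Type*} [NormedAddCommGroup H] [NormedSpace ℝ H]

lemma zeta_mem {W : Set H} (hconv : Convex ℝ W) (T : H →L[ℝ] H) (hT : ∀ w ∈ W, T w ∈ W) {w : H} (hw : w ∈ W) :
    (16 / 17 : ℝ) • w + (1 / 17 : ℝ) • T w ∈ W :=
  hconv hw (hT w hw) (by norm_num) (by norm_num) (by norm_num)

lemma zero_mem {W : Set H} (hclosed : IsClosed W) (hconv : Convex ℝ W) (T : H →L[ℝ] H)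
    (hT : ∀ w ∈ W, T w ∈ W) (hN : ∀ w, ‖T w + (16 : ℝ) • w‖ ≤ ‖w‖) {w : H} (hw : w ∈ W) : (0 : H) ∈ W := by
  -- iterate zeta
  have h1 : ∀ n : ℕ, ∃ z ∈ W, ‖z‖ ≤ (1 / 17 : ℝ) ^ n * ‖w‖ := by
    intro n
    induction n with
    | zero => exact ⟨w, hw, by simp⟩
    | succ n ih =>
      obtain ⟨z, hz, hzn⟩ := ih
      refine ⟨(16 / 17 : ℝ) • z + (1 / 17 : ℝ) • T z, zeta_mem hconv T hT hz, ?_⟩
      have e : (16 / 17 : ℝ) • z + (1 / 17 : ℝ) • T z = (1 / 17 : ℝ) • (T z + (16 : ℝ) • z) := by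
        rw [smul_add, smul_smul]; norm_num; abel
      rw [e, norm_smul, Real.norm_eq_abs, abs_of_pos (by norm_num : (0 : ℝ) < 1 / 17)]
      have := hN z
      rw [pow_succ]
      nlinarith
  choose z hz hzn using h1
  have hlim : Tendsto z atTop (𝓝 0) := by
    apply squeeze_zero_norm hzn
    have : Tendsto (fun n : ℕ => (1 / 17 : ℝ) ^ n) atTop (𝓝 0) :=
      tendsto_pow_atTop_nhds_zero_of_lt_one (by norm_num) (by norm_num)
    simpa using this.mul_const ‖w‖
  exact hclosed.mem_of_tendsto hlim (Eventually.of_forall hz)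

/-- the operator `Q = (T + 16)/16` -/
noncomputable def Q (T : H →L[ℝ] H) : H →L[ℝ] H := (1 / 16 : ℝ) • (T + (16 : ℝ) • (1 : H →L[ℝ] H))

lemma Q_apply (T : H →L[ℝ] H) (w : H) : Q T w = (1 / 16 : ℝ) • (T w + (16 : ℝ) • w) := by
  simp [Q]

lemma T_eq (T : H →L[ℝ] H) : T = (-16 : ℝ) • (1 - Q T) := by
  ext w
  simp only [Q_apply, _root_.smul_apply, _root_.sub_apply,
    one_apply_eq_self, smul_sub, smul_add, smul_smul]
  norm_num

lemma norm_Q_le (T : H →L[ℝ] H) (hN : ∀ w, ‖T w + (16 : ℝ) • w‖ ≤ ‖w‖) : ‖Q T‖ ≤ 1 / 16 := by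
  apply ContinuousLinearMap.opNorm_le_bound _ (by norm_num)
  intro w
  rw [Q_apply, norm_smul, Real.norm_eq_abs, abs_of_pos (by norm_num : (0 : ℝ) < 1 / 16)]
  have := hN w
  linarith

lemma Q_pow_mem {W : Set H} (hconv : Convex ℝ W) (T : H →L[ℝ] H) (hT : ∀ w ∈ W, T w ∈ W) {w : H} (hw : w ∈ W)
    (k : ℕ) : (16 / 17 : ℝ) ^ k • ((Q T) ^ k) w ∈ W := by
  induction k with
  | zero => simpa using hw
  | succ k ih =>
    have h := zeta_mem hconv T hT ih
    have e : (16 / 17 : ℝ) • ((16 / 17 : ℝ) ^ k • ((Q T) ^ k) w) + (1 / 17 : ℝ) • T ((16 / 17 : ℝ) ^ k • ((Q T) ^ k) w)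
       = (16 / 17 : ℝ) ^ (k + 1) • ((Q T) ^ (k + 1)) w := by
      rw [pow_succ' (Q T), mul_apply_eq_comp, Q_apply, map_smul, pow_succ]
      module
    rwa [e] at h

lemma T_pow_mem {W : Set H} (T : H →L[ℝ] H) (hT : ∀ w ∈ W, T w ∈ W) {w : H} (hw : w ∈ W)
    (k : ℕ) : (T ^ k) w ∈ W := by
  induction k with
  | zero => simpa using hw
  | succ k ih =>
    rw [pow_succ', mul_apply_eq_comp]
    exact hT _ ih

/-- total weight -/
noncomputable def sigma (a : ℕ) : ℝ := ∑ k ∈ Finset.range (a + 1), (Nat.choose (a + k - 1) k : ℝ) * (17 / 16) ^ k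

lemma sigma_pos (a : ℕ) : 0 < sigma a := by
  unfold sigma
  rw [Finset.sum_range_succ']
  have : 0 ≤ ∑ k ∈ Finset.range a, (Nat.choose (a + (k + 1) - 1) (k + 1) : ℝ) * (17 / 16) ^ (k + 1) := by positivity
  simp only [Nat.choose_zero_right, Nat.cast_one, pow_zero, mul_one]
  linarith

lemma sigma_le (a : ℕ) : sigma a ≤ (a + 1) * (17 / 4) ^ a := by
  unfold sigma
  have h : ∀ k ∈ Finset.range (a + 1), (Nat.choose (a + k - 1) k : ℝ) * (17 / 16) ^ k ≤ (17 / 4) ^ a := by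
    intro k hk
    have hk' : k ≤ a := by simpa [Nat.lt_succ_iff] using hk
    have h1 : (Nat.choose (a + k - 1) k : ℝ) ≤ 4 ^ a := by
      have : Nat.choose (a + k - 1) k ≤ 2 ^ (a + k - 1) := Nat.choose_le_two_pow _ _
      have h2 : 2 ^ (a + k - 1) ≤ 2 ^ (2 * a) := Nat.pow_le_pow_right (by norm_num) (by omega)
      have h3 : (2 : ℕ) ^ (2 * a) = 4 ^ a := by rw [pow_mul]; norm_num
      exact_mod_cast (this.trans h2).trans h3.le
    have h2 : ((17 : ℝ) / 16) ^ k ≤ (17 / 16) ^ a := pow_le_pow_right₀ (by norm_num) hk'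
    calc (Nat.choose (a + k - 1) k : ℝ) * (17 / 16) ^ k ≤ 4 ^ a * (17 / 16) ^ a := by gcongr
      _ = (17 / 4) ^ a := by rw [← mul_pow]; norm_num
  calc _ ≤ ∑ _k ∈ Finset.range (a + 1), ((17 : ℝ) / 4) ^ a := Finset.sum_le_sum h
    _ = _ := by simp

lemma aeval_P (T : H →L[ℝ] H) (a K : ℕ) : aeval (Q T) (P a K) =
    ∑ k ∈ Finset.range (K + 1), (Nat.choose (a + k - 1) k : ℝ) • (Q T) ^ k := by
  unfold P
  simp [map_sum, Algebra.smul_def]

/-- the approximants lie in `W` -/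
lemma approx_mem {W : Set H} (hclosed : IsClosed W) (hconv : Convex ℝ W) (T : H →L[ℝ] H)
    (hT : ∀ w ∈ W, T w ∈ W) (hN : ∀ w, ‖T w + (16 : ℝ) • w‖ ≤ ‖w‖) {w : H} (hw : w ∈ W)
    {τ : ℝ} (hτ : 0 < τ) (a : ℕ) (hle : τ * sigma a ≤ 1) :
    τ • (T ^ a) (aeval (Q T) (P a a) w) ∈ W := by
  have h0 := zero_mem hclosed hconv T hT hN hw
  have hs := sigma_pos a
  -- normalised convex combination
  have h1 : ∑ k ∈ Finset.range (a + 1), (((Nat.choose (a + k - 1) k : ℝ) * (17 / 16) ^ k) / sigma a) •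
      (T ^ a) ((16 / 17 : ℝ) ^ k • ((Q T) ^ k) w) ∈ W := by
    apply hconv.sum_mem
    · intro k _; positivity
    · rw [← Finset.sum_div]
      exact div_self hs.ne'
    · intro k _
      exact T_pow_mem T hT (Q_pow_mem hconv T hT hw k) a
  have h2 := hconv.smul_mem_of_zero_mem h0 h1 (t := τ * sigma a) ⟨by positivity, hle⟩
  convert h2 using 1
  rw [aeval_P, _root_.sum_apply, map_sum, Finset.smul_sum, Finset.smul_sum]
  apply Finset.sum_congr rfl
  intro k _
  rw [_root_.smul_apply, map_smul, map_smul, smul_smul, smul_smul, smul_smul]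
  congr 1
  field_simp
  rw [mul_assoc, ← mul_pow]
  norm_num

/-- the error operator -/
lemma approx_eq (T : H →L[ℝ] H) (a : ℕ) :
    T ^ a * aeval (Q T) (P a a) = ((-16 : ℝ) ^ a) • (1 - (Q T) ^ (a + 1) *
      ∑ j ∈ Finset.range a, (Nat.choose (j + a) a : ℝ) • (1 - Q T) ^ j) := by
  have h1 : T ^ a = ((-16 : ℝ) ^ a) • (1 - Q T) ^ a := by
    conv_lhs => rw [T_eq T]
    rw [_root_.smul_pow]
  have h2 := congrArg (aeval (Q T)) (P_main a a)
  simp only [map_mul, map_pow, map_sub, map_one, aeval_X, map_sum, aeval_C] at h2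
  rw [h1, smul_mul_assoc, h2]
  simp [Algebra.smul_def]

lemma norm_error (T : H →L[ℝ] H) (hN : ∀ w, ‖T w + (16 : ℝ) • w‖ ≤ ‖w‖) (a : ℕ) :
    ‖(Q T) ^ (a + 1) * ∑ j ∈ Finset.range a, (Nat.choose (j + a) a : ℝ) • (1 - Q T) ^ j‖ ≤
      (a : ℝ) * (1 / 2) ^ a := by
  rcases subsingleton_or_nontrivial H with hs | hs
  · have : ((Q T) ^ (a + 1) * ∑ j ∈ Finset.range a, (Nat.choose (j + a) a : ℝ) • (1 - Q T) ^ j) = 0 := by
      ext w; exact Subsingleton.elim _ _
    rw [this, norm_zero]; positivity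
  have hQ := norm_Q_le T hN
  have h1 : ‖(Q T) ^ (a + 1)‖ ≤ (1 / 16) ^ (a + 1) :=
    (norm_pow_le _ _).trans (pow_le_pow_left₀ (norm_nonneg _) hQ _)
  have h2 : ‖(1 : H →L[ℝ] H) - Q T‖ ≤ 2 := by
    calc _ ≤ ‖(1 : H →L[ℝ] H)‖ + ‖Q T‖ := norm_sub_le _ _
      _ ≤ 1 + 1 / 16 := by gcongr; exact norm_one.le
      _ ≤ 2 := by norm_num
  have h3 : ‖∑ j ∈ Finset.range a, (Nat.choose (j + a) a : ℝ) • (1 - Q T) ^ j‖ ≤ a * 8 ^ a := by
    calc _ ≤ ∑ j ∈ Finset.range a, ‖(Nat.choose (j + a) a : ℝ) • (1 - Q T) ^ j‖ := norm_sum_le _ _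
      _ ≤ ∑ _j ∈ Finset.range a, (8 : ℝ) ^ a := by
        apply Finset.sum_le_sum
        intro j hj
        have hj' : j < a := by simpa using hj
        rw [norm_smul, Real.norm_eq_abs, abs_of_nonneg (by positivity)]
        have h4 : (Nat.choose (j + a) a : ℝ) ≤ 4 ^ a := by
          have : Nat.choose (j + a) a ≤ 2 ^ (j + a) := Nat.choose_le_two_pow _ _
          have h2 : 2 ^ (j + a) ≤ 2 ^ (2 * a) := Nat.pow_le_pow_right (by norm_num) (by omega)
          have h3 : (2 : ℕ) ^ (2 * a) = 4 ^ a := by rw [pow_mul]; norm_num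
          exact_mod_cast (this.trans h2).trans h3.le
        have h5 : ‖(1 - Q T) ^ j‖ ≤ 2 ^ a := by
          calc _ ≤ ‖(1 : H →L[ℝ] H) - Q T‖ ^ j := norm_pow_le _ _
            _ ≤ 2 ^ j := pow_le_pow_left₀ (norm_nonneg _) h2 _
            _ ≤ 2 ^ a := pow_le_pow_right₀ (by norm_num) hj'.le
        calc _ ≤ (4 : ℝ) ^ a * 2 ^ a := by gcongr
          _ = 8 ^ a := by rw [← mul_pow]; norm_num
      _ = _ := by simp
  calc _ ≤ ‖(Q T) ^ (a + 1)‖ * ‖∑ j ∈ Finset.range a, (Nat.choose (j + a) a : ℝ) • (1 - Q T) ^ j‖ := norm_mul_le _ _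
    _ ≤ (1 / 16) ^ (a + 1) * (a * 8 ^ a) := by gcongr
    _ = (a : ℝ) * (1 / 2) ^ a * (1 / 16) := by
      have : (1 / 16 : ℝ) ^ (a + 1) * (a * 8 ^ a) = a * ((1 / 16) ^ a * 8 ^ a) * (1 / 16) := by ring
      rw [this, ← mul_pow]; norm_num
    _ ≤ _ := by
      have : 0 ≤ (a : ℝ) * (1 / 2) ^ a := by positivity
      linarith

lemma approx_bound (T : H →L[ℝ] H) (hN : ∀ w, ‖T w + (16 : ℝ) • w‖ ≤ ‖w‖) (w : H) {c : ℝ} (hc : 0 < c) (a : ℕ) :
    ‖(c / 16 ^ a) • (T ^ a) (aeval (Q T) (P a a) w) - ((-1) ^ a * c) • w‖ ≤ c * ((a : ℝ) * (1 / 2) ^ a) * ‖w‖ := by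
  have h := congrArg (fun B : H →L[ℝ] H => B w) (approx_eq T a)
  simp only [mul_apply_eq_comp, _root_.smul_apply, _root_.sub_apply,
    one_apply_eq_self] at h
  rw [h]
  set E := (Q T) ^ (a + 1) * ∑ j ∈ Finset.range a, (Nat.choose (j + a) a : ℝ) • (1 - Q T) ^ j with hE
  have e : (c / 16 ^ a) • ((-16 : ℝ) ^ a) • (w - E w) - ((-1) ^ a * c) • w = -(((-1) ^ a * c) • E w) := by
    have h2 : (c / 16 ^ a) * (-16 : ℝ) ^ a = (-1) ^ a * c := by
      rw [show (-16 : ℝ) = (-1) * 16 by norm_num, mul_pow]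
      field_simp
    rw [smul_smul, h2, smul_sub]
    abel
  have hEw : ((Q T) ^ (a + 1)) ((∑ j ∈ Finset.range a, (Nat.choose (j + a) a : ℝ) • (1 - Q T) ^ j) w) = E w := rfl
  rw [hEw, e, norm_neg, norm_smul, Real.norm_eq_abs, abs_mul, abs_pow, abs_neg, abs_one, one_pow, one_mul,
    abs_of_pos hc, mul_assoc]
  gcongr
  exact (E.le_opNorm w).trans (by gcongr; exact norm_error T hN a)

theorem smul_mem {W : Set H} (hclosed : IsClosed W) (hconv : Convex ℝ W) (T : H →L[ℝ] H)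
    (hT : ∀ w ∈ W, T w ∈ W) (hN : ∀ w, ‖T w + (16 : ℝ) • w‖ ≤ ‖w‖) {w : H} (hw : w ∈ W) (c : ℝ) :
    c • w ∈ W := by
  have key : ∀ c : ℝ, 0 < c → ∀ ε : ℕ, ((-1) ^ ε * c) • w ∈ W := by
    intro c hc ε
    have hlim : Tendsto (fun m : ℕ => (c / 16 ^ (2 * m + ε)) • (T ^ (2 * m + ε)) (aeval (Q T) (P (2 * m + ε) (2 * m + ε)) w))
        atTop (𝓝 (((-1) ^ ε * c) • w)) := by
      rw [tendsto_iff_norm_sub_tendsto_zero]
      have h1 : Tendsto (fun a : ℕ => c * ((a : ℝ) * (1 / 2) ^ a) * ‖w‖) atTop (𝓝 0) := by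
        have := tendsto_self_mul_const_pow_of_abs_lt_one (r := (1 / 2 : ℝ)) (by rw [abs_of_pos] <;> norm_num)
        simpa using (this.const_mul c).mul_const ‖w‖
      have h2 : Tendsto (fun m : ℕ => 2 * m + ε) atTop atTop :=
        tendsto_atTop_mono (fun m => (by show m ≤ 2 * m + ε; omega)) tendsto_id
      refine squeeze_zero (fun _ => norm_nonneg _) (fun m => ?_) (h1.comp h2)
      have := approx_bound T hN w hc (2 * m + ε)
      have e : ((-1 : ℝ)) ^ (2 * m + ε) = (-1) ^ ε := by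
        rw [pow_add, pow_mul]; norm_num
      rw [e] at this
      simpa using this
    have hev : ∀ᶠ m : ℕ in atTop, (c / 16 ^ (2 * m + ε)) • (T ^ (2 * m + ε)) (aeval (Q T) (P (2 * m + ε) (2 * m + ε)) w) ∈ W := by
      have h1 : Tendsto (fun a : ℕ => c * ((a + 1 : ℝ) * (17 / 64) ^ a)) atTop (𝓝 0) := by
        have h3 := tendsto_self_mul_const_pow_of_abs_lt_one (r := (17 / 64 : ℝ)) (by rw [abs_of_pos] <;> norm_num)
        have h4 : Tendsto (fun n : ℕ => (17 / 64 : ℝ) ^ n) atTop (𝓝 0) :=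
          tendsto_pow_atTop_nhds_zero_of_lt_one (by norm_num) (by norm_num)
        have h5 := (h3.add h4).const_mul c
        simp only [add_zero, mul_zero] at h5
        refine h5.congr (fun a => by ring)
      have h2 : Tendsto (fun m : ℕ => 2 * m + ε) atTop atTop :=
        tendsto_atTop_mono (fun m => (by show m ≤ 2 * m + ε; omega)) tendsto_id
      have h3 := (h1.comp h2).eventually (gt_mem_nhds (show (0 : ℝ) < 1 by norm_num))
      filter_upwards [h3] with m hm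
      apply approx_mem hclosed hconv T hT hN hw (by positivity)
      simp only [Function.comp] at hm
      refine le_trans ?_ hm.le
      set a := 2 * m + ε
      calc c / 16 ^ a * sigma a ≤ c / 16 ^ a * ((a + 1) * (17 / 4) ^ a) := by
            gcongr; exact sigma_le a
        _ = c * ((a + 1 : ℝ) * (17 / 64) ^ a) := by
            rw [show (17 / 64 : ℝ) = (17 / 4) / 16 by norm_num, div_pow (17 / 4 : ℝ) 16 a]
            field_simp
    exact hclosed.mem_of_tendsto hlim hev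
  rcases lt_trichotomy c 0 with h | h | h
  · have := key (-c) (by linarith) 1
    simpa using this
  · rw [h, zero_smul]
    exact zero_mem hclosed hconv T hT hN hw
  · have := key c h 0
    simpa using this

end A

end PartA

section PartB

open Filter Topology Complex Bornology

open scoped InnerProductSpace ComplexConjugate

namespace B

variable {H : Type*} [NormedAddCommGroup H] [InnerProductSpace ℂ H] [CompleteSpace H]

/-- region where the resolvent exists -/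
def U : Set ℂ := {v : ℂ | -1 / 2 < v.re}

lemma norm_lt_of_mem_U {v : ℂ} (hv : v ∈ U) : ‖v‖ < ‖1 + v‖ := by
  have hv' : -1 / 2 < v.re := hv
  have h : ‖v‖ ^ 2 < ‖1 + v‖ ^ 2 := by
    rw [← Complex.normSq_eq_norm_sq, ← Complex.normSq_eq_norm_sq, Complex.normSq_apply, Complex.normSq_apply]
    simp only [Complex.add_re, Complex.one_re, Complex.add_im, Complex.one_im]
    nlinarith
  exact lt_of_pow_lt_pow_left₀ 2 (norm_nonneg _) h

lemma isUnit_of_mem_U (S : H →L[ℂ] H) (hS : ‖S‖ ≤ 1) {v : ℂ} (hv : v ∈ U) :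
    IsUnit ((1 : H →L[ℂ] H) + v • (1 - S)) := by
  have h1 := norm_lt_of_mem_U hv
  have h0 : (0 : ℝ) < ‖1 + v‖ := lt_of_le_of_lt (norm_nonneg _) h1
  have hne : 1 + v ≠ 0 := norm_pos_iff.mp h0
  have e : (1 : H →L[ℂ] H) + v • (1 - S) = (1 + v) • (1 - (v / (1 + v)) • S) := by
    rw [smul_sub, smul_sub, smul_smul, mul_div_cancel₀ _ hne, add_smul, one_smul]
    abel
  rw [e]
  have h2 : ‖(v / (1 + v)) • S‖ < 1 := by
    rw [norm_smul, norm_div]
    calc ‖v‖ / ‖1 + v‖ * ‖S‖ ≤ ‖v‖ / ‖1 + v‖ * 1 := by gcongr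
      _ < 1 := by rw [mul_one, div_lt_one h0]; exact h1
  have h3 : IsUnit ((1 : H →L[ℂ] H) - (v / (1 + v)) • S) := isUnit_one_sub_of_norm_lt_one h2
  exact (IsUnit.smul (Units.mk0 (1 + v) hne) h3)

/-- the resolvent -/
noncomputable def R (S : H →L[ℂ] H) (v : ℂ) : H →L[ℂ] H := Ring.inverse ((1 : H →L[ℂ] H) + v • (1 - S))

lemma R_eq (S : H →L[ℂ] H) (hS : ‖S‖ ≤ 1) {v : ℂ} (hv : v ∈ U) :
    R S v + v • ((1 - S) * R S v) = 1 := by
  have := Ring.mul_inverse_cancel _ (isUnit_of_mem_U S hS hv)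
  rw [add_mul, one_mul, smul_mul_assoc] at this
  exact this

lemma R_apply (S : H →L[ℂ] H) (hS : ‖S‖ ≤ 1) {v : ℂ} (hv : v ∈ U) (x : H) :
    R S v x + v • (R S v x - S (R S v x)) = x := by
  have := congrArg (fun B : H →L[ℂ] H => B x) (R_eq S hS hv)
  simpa using this

omit [CompleteSpace H] in
lemma R_zero (S : H →L[ℂ] H) : R S 0 = 1 := by
  unfold R; simp

lemma differentiableAt_R (S : H →L[ℂ] H) (hS : ‖S‖ ≤ 1) {v : ℂ} (hv : v ∈ U) :
    DifferentiableAt ℂ (R S) v := by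
  obtain ⟨u, hu⟩ := isUnit_of_mem_U S hS hv
  have h1 : DifferentiableAt ℂ (fun v : ℂ => (1 : H →L[ℂ] H) + v • (1 - S)) v := by fun_prop
  have h2 : DifferentiableAt ℂ Ring.inverse ((1 : H →L[ℂ] H) + v • (1 - S)) := by
    exact differentiableAt_inverse (isUnit_of_mem_U S hS hv)
  exact DifferentiableAt.comp v h2 h1

lemma isOpen_U : IsOpen U := isOpen_lt continuous_const Complex.continuous_re

lemma convex_U : Convex ℝ U := convex_halfSpace_re_gt _

/-- crude bound -/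
lemma norm_R_apply_le (S : H →L[ℂ] H) (hS : ‖S‖ ≤ 1) {v : ℂ} (hv : 0 ≤ v.re) (x : H) :
    ‖R S v x‖ ≤ (1 + 2 * ‖v‖) * ‖x‖ := by
  have hvU : v ∈ U := by show -1 / 2 < v.re; linarith
  have h := R_apply S hS hvU x
  set u := R S v x with hu
  have h1 : (1 + v) • u = x + v • S u := by
    rw [add_smul, one_smul]
    have : x = u + v • (u - S u) := h.symm
    rw [this, smul_sub]; abel
  have h2 : ‖1 + v‖ * ‖u‖ ≤ ‖x‖ + ‖v‖ * ‖u‖ := by
    rw [← norm_smul, h1]
    refine (norm_add_le _ _).trans ?_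
    rw [norm_smul]
    have : ‖S u‖ ≤ 1 * ‖u‖ := S.le_of_opNorm_le hS u
    gcongr
    linarith
  have h3 : 1 ≤ (‖1 + v‖ - ‖v‖) * (1 + 2 * ‖v‖) := by
    have e1 : ‖1 + v‖ ^ 2 - ‖v‖ ^ 2 = 1 + 2 * v.re := by
      rw [← Complex.normSq_eq_norm_sq, ← Complex.normSq_eq_norm_sq, Complex.normSq_apply, Complex.normSq_apply]
      simp only [Complex.add_re, Complex.one_re, Complex.add_im, Complex.one_im]
      ring
    have e2 : ‖1 + v‖ ≤ 1 + ‖v‖ := by
      have := norm_add_le (1 : ℂ) v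
      simpa using this
    have e3 : 0 ≤ ‖1 + v‖ - ‖v‖ := by
      have := norm_lt_of_mem_U hvU
      linarith
    have e4 : (‖1 + v‖ - ‖v‖) * (‖1 + v‖ + ‖v‖) = 1 + 2 * v.re := by rw [← e1]; ring
    nlinarith [norm_nonneg v]
  have h4 : (‖1 + v‖ - ‖v‖) * ‖u‖ ≤ ‖x‖ := by linarith
  have e5 : 0 ≤ 1 + 2 * ‖v‖ := by positivity
  calc ‖u‖ = 1 * ‖u‖ := (one_mul _).symm
    _ ≤ ((‖1 + v‖ - ‖v‖) * (1 + 2 * ‖v‖)) * ‖u‖ := by gcongr
    _ = (1 + 2 * ‖v‖) * ((‖1 + v‖ - ‖v‖) * ‖u‖) := by ring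
    _ ≤ _ := by gcongr

/-- on the positive real axis -/
lemma norm_R_real (S : H →L[ℂ] H) (hS : ‖S‖ ≤ 1) (hiso : ∀ x, ‖S x‖ = ‖x‖) (e0 : H)
    (horth : ∀ x, ⟪e0, S x⟫_ℂ = 0) {v : ℝ} (hv : 0 ≤ v) :
    (1 + 2 * v) * ‖R S (v : ℂ) e0‖ ^ 2 = ‖e0‖ ^ 2 := by
  have hvU : (v : ℂ) ∈ U := by show -1 / 2 < (v : ℂ).re; simp; linarith
  have h := R_apply S hS hvU e0
  set u := R S (v : ℂ) e0 with hu
  have h1 : ((1 + v : ℝ) : ℂ) • u = e0 + (v : ℂ) • S u := by
    push_cast
    rw [add_smul, one_smul]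
    have : e0 = u + (v : ℂ) • (u - S u) := h.symm
    rw [this, smul_sub]; abel
  have h2 : ‖e0 + (v : ℂ) • S u‖ ^ 2 = ‖e0‖ ^ 2 + v ^ 2 * ‖u‖ ^ 2 := by
    rw [@norm_add_sq ℂ]
    rw [inner_smul_right, horth, mul_zero, norm_smul, hiso]
    simp [mul_pow]
  rw [← h1, norm_smul] at h2
  have h3 : ‖((1 + v : ℝ) : ℂ)‖ = 1 + v := by
    rw [Complex.norm_real, Real.norm_eq_abs, abs_of_nonneg (by linarith)]
  rw [h3] at h2
  nlinarith

lemma diffK (S : H →L[ℂ] H) (hS : ‖S‖ ≤ 1) (f e0 : H) : DifferentiableOn ℂ (fun v => ⟪f, R S v e0⟫_ℂ) U := by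
  intro v hv
  have h1 := differentiableAt_R S hS hv
  have h2 : DifferentiableAt ℂ (fun v => (innerSL ℂ f) ((ContinuousLinearMap.apply ℂ H e0) (R S v))) v :=
    ((innerSL ℂ f).differentiableAt.comp v (((ContinuousLinearMap.apply ℂ H e0)).differentiableAt.comp v h1))
  exact (h2.congr_of_eventuallyEq (Eventually.of_forall fun w => by simp)).differentiableWithinAt

/-- real part vanishes on the imaginary axis near `0` -/
lemma re_small (S : H →L[ℂ] H) (hS : ‖S‖ ≤ 1) (f e0 : H)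
    (hf : ∀ n : ℕ, (⟪f, (((I / 2 : ℂ) • (1 - S)) ^ n) e0⟫_ℂ).re = 0) {x : ℝ} (hx : |x| < 1 / 2) :
    (⟪f, R S (x * I) e0⟫_ℂ).re = 0 := by
  set N : H →L[ℂ] H := (I / 2 : ℂ) • (1 - S) with hN
  have hD : ‖(1 : H →L[ℂ] H) - S‖ ≤ 2 := by
    have h1 : ‖(1 : H →L[ℂ] H)‖ ≤ 1 := ContinuousLinearMap.norm_id_le
    calc _ ≤ ‖(1 : H →L[ℂ] H)‖ + ‖S‖ := norm_sub_le _ _
      _ ≤ 2 := by linarith
  set t : H →L[ℂ] H := ((-2 * x : ℝ) : ℂ) • N with ht
  have htn : ‖t‖ < 1 := by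
    rw [ht, hN, norm_smul, norm_smul, Complex.norm_real, Real.norm_eq_abs, abs_mul]
    have : ‖(I / 2 : ℂ)‖ = 1 / 2 := by simp
    rw [this]
    have h2 : |(-2 : ℝ)| = 2 := by norm_num
    rw [h2]
    nlinarith [norm_nonneg ((1 : H →L[ℂ] H) - S), abs_nonneg x]
  have e1 : (1 : H →L[ℂ] H) + ((x : ℂ) * I) • (1 - S) = 1 - t := by
    rw [ht, hN, smul_smul]
    have : ((-2 * x : ℝ) : ℂ) * (I / 2) = -(x * I) := by push_cast; ring
    rw [this, neg_smul, sub_neg_eq_add]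
  have e2 : R S (x * I) = ∑' n : ℕ, t ^ n := by
    unfold R
    rw [e1, NormedRing.inverse_one_sub t htn]
    rfl
  have hs : HasSum (fun n : ℕ => t ^ n) (R S (x * I)) := by
    rw [e2]
    exact (summable_geometric_of_norm_lt_one htn).hasSum
  have hs2 : HasSum (fun n : ℕ => (⟪f, (t ^ n) e0⟫_ℂ).re) (⟪f, R S (x * I) e0⟫_ℂ).re := by
    have h1 := (((Complex.reCLM).comp (((innerSL ℂ f).restrictScalars ℝ).comp
      ((ContinuousLinearMap.apply ℂ H e0).restrictScalars ℝ)))).hasSum hs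
    simpa using h1
  have hz : ∀ n : ℕ, (⟪f, (t ^ n) e0⟫_ℂ).re = 0 := by
    intro n
    rw [ht, smul_pow, smul_apply, inner_smul_right, ← Complex.ofReal_pow, Complex.re_ofReal_mul, hf n, mul_zero]
  simp only [hz] at hs2
  exact hs2.unique hasSum_zero

lemma re_all (S : H →L[ℂ] H) (hS : ‖S‖ ≤ 1) (f e0 : H)
    (hf : ∀ n : ℕ, (⟪f, (((I / 2 : ℂ) • (1 - S)) ^ n) e0⟫_ℂ).re = 0) (x : ℝ) :
    (⟪f, R S (x * I) e0⟫_ℂ).re = 0 := by
  have hK := (diffK S hS f e0).analyticOnNhd isOpen_U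
  have h1 : AnalyticOnNhd ℝ (fun x : ℝ => (⟪f, R S ((x : ℂ) * I) e0⟫_ℂ).re) Set.univ := by
    intro x _
    have hx : ((x : ℂ) * I) ∈ U := by show -1 / 2 < ((x : ℂ) * I).re; simp; norm_num
    have h2 : AnalyticAt ℝ (fun v : ℂ => ⟪f, R S v e0⟫_ℂ) ((x : ℂ) * I) := (hK _ hx).restrictScalars
    have h3 : AnalyticAt ℝ (fun x : ℝ => (x : ℂ) * I) x := by
      have : AnalyticAt ℝ (fun x : ℝ => (Complex.ofRealCLM x) * I) x :=
        (Complex.ofRealCLM.analyticAt x).mul analyticAt_const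
      simpa using this
    have h4 : AnalyticAt ℝ (fun x : ℝ => ⟪f, R S ((x : ℂ) * I) e0⟫_ℂ) x := h2.comp_of_eq h3 rfl
    exact (Complex.reCLM.analyticAt _).comp h4
  have h5 : (fun x : ℝ => (⟪f, R S ((x : ℂ) * I) e0⟫_ℂ).re) =ᶠ[𝓝 0] 0 := by
    have : ∀ᶠ x : ℝ in 𝓝 0, |x| < 1 / 2 := by
      have : ContinuousAt (fun x : ℝ => |x|) 0 := continuous_abs.continuousAt
      exact this.eventually_lt_const (by simp)
    filter_upwards [this] with x hx
    exact re_small S hS f e0 hf hx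
  have h6 := h1.eqOn_zero_of_preconnected_of_eventuallyEq_zero isPreconnected_univ (Set.mem_univ 0) h5
  exact h6 (Set.mem_univ x)

/-- Phragmen-Lindelof step -/
lemma re_le (S : H →L[ℂ] H) (hS : ‖S‖ ≤ 1) (hiso : ∀ x, ‖S x‖ = ‖x‖) (f e0 : H)
    (horth : ∀ x, ⟪e0, S x⟫_ℂ = 0)
    (hf : ∀ n : ℕ, (⟪f, (((I / 2 : ℂ) • (1 - S)) ^ n) e0⟫_ℂ).re = 0) {v : ℂ} (hv : 0 ≤ v.re) :
    (⟪f, R S v e0⟫_ℂ).re ≤ 0 := by
  have hsub : {z : ℂ | 0 < z.re} ⊆ U := fun z hz => by
    have : 0 < z.re := hz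
    show -1 / 2 < z.re; linarith
  have hcl : closure {z : ℂ | 0 < z.re} ⊆ U := by
    intro z hz
    have h1 : closure {z : ℂ | 0 < z.re} ⊆ {z : ℂ | 0 ≤ z.re} :=
      closure_minimal (fun z hz => show 0 ≤ z.re from le_of_lt hz) (isClosed_le continuous_const Complex.continuous_re)
    have : 0 ≤ z.re := h1 hz
    show -1 / 2 < z.re; linarith
  have hd : DifferentiableOn ℂ (fun v => Complex.exp (⟪f, R S v e0⟫_ℂ)) U := (diffK S hS f e0).cexp
  have hdc : DiffContOnCl ℂ (fun v => Complex.exp (⟪f, R S v e0⟫_ℂ)) {z | 0 < z.re} :=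
    (hd.mono hcl).diffContOnCl
  have hbd : ∀ z : ℂ, 0 ≤ z.re → ‖Complex.exp (⟪f, R S z e0⟫_ℂ)‖ ≤
      Real.exp (‖f‖ * ‖e0‖) * Real.exp ((2 * (‖f‖ * ‖e0‖)) * ‖z‖) := by
    intro z hz
    rw [Complex.norm_exp, ← Real.exp_add]
    apply Real.exp_le_exp.mpr
    calc (⟪f, R S z e0⟫_ℂ).re ≤ ‖⟪f, R S z e0⟫_ℂ‖ := Complex.re_le_norm _
      _ ≤ ‖f‖ * ‖R S z e0‖ := norm_inner_le_norm _ _
      _ ≤ ‖f‖ * ((1 + 2 * ‖z‖) * ‖e0‖) := by gcongr; exact norm_R_apply_le S hS hz e0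
      _ = _ := by ring
  have hexp : ∃ c < (2 : ℝ), ∃ B, (fun v => Complex.exp (⟪f, R S v e0⟫_ℂ)) =O[cobounded ℂ ⊓ 𝓟 {z | 0 < z.re}]
      fun z => Real.exp (B * ‖z‖ ^ c) := by
    refine ⟨1, by norm_num, 2 * (‖f‖ * ‖e0‖), ?_⟩
    apply Asymptotics.IsBigO.of_bound (Real.exp (‖f‖ * ‖e0‖))
    rw [eventually_inf_principal]
    refine Eventually.of_forall fun z hz => ?_
    have := hbd z (le_of_lt hz)
    rw [Real.rpow_one, Real.norm_eq_abs, abs_of_pos (Real.exp_pos _)]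
    exact this
  have hre : IsBoundedUnder (· ≤ ·) atTop fun x : ℝ => ‖Complex.exp (⟪f, R S (x : ℂ) e0⟫_ℂ)‖ := by
    refine ⟨Real.exp (‖f‖ * ‖e0‖), ?_⟩
    rw [eventually_map]
    filter_upwards [eventually_ge_atTop (0 : ℝ)] with x hx
    rw [Complex.norm_exp]
    apply Real.exp_le_exp.mpr
    have h1 := norm_R_real S hS hiso e0 horth hx
    have h2 : ‖R S (x : ℂ) e0‖ ≤ ‖e0‖ := by
      apply le_of_sq_le_sq _ (norm_nonneg _)
      nlinarith [sq_nonneg ‖R S (x : ℂ) e0‖]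
    calc (⟪f, R S (x : ℂ) e0⟫_ℂ).re ≤ ‖⟪f, R S (x : ℂ) e0⟫_ℂ‖ := Complex.re_le_norm _
      _ ≤ ‖f‖ * ‖R S (x : ℂ) e0‖ := norm_inner_le_norm _ _
      _ ≤ _ := by gcongr
  have him : ∀ x : ℝ, ‖Complex.exp (⟪f, R S (x * I) e0⟫_ℂ)‖ ≤ 1 := by
    intro x
    rw [Complex.norm_exp, re_all S hS f e0 hf x, Real.exp_zero]
  have := PhragmenLindelof.right_half_plane_of_bounded_on_real hdc hexp hre him hv
  rw [Complex.norm_exp] at this
  exact Real.exp_le_one_iff.mp this

theorem realcyclic (S : H →L[ℂ] H) (hS : ‖S‖ ≤ 1) (hiso : ∀ x, ‖S x‖ = ‖x‖) (f e0 : H)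
    (horth : ∀ x, ⟪e0, S x⟫_ℂ = 0)
    (hdense : ∀ g : H, (∀ n : ℕ, ⟪g, (S ^ n) e0⟫_ℂ = 0) → g = 0)
    (hf : ∀ n : ℕ, (⟪f, (((I / 2 : ℂ) • (1 - S)) ^ n) e0⟫_ℂ).re = 0) : f = 0 := by
  -- real part vanishes on right half plane
  have hre0 : ∀ v : ℂ, 0 ≤ v.re → (⟪f, R S v e0⟫_ℂ).re = 0 := by
    intro v hv
    apply le_antisymm (re_le S hS hiso f e0 horth hf hv)
    have hf' : ∀ n : ℕ, (⟪-f, (((I / 2 : ℂ) • (1 - S)) ^ n) e0⟫_ℂ).re = 0 := by
      intro n; rw [inner_neg_left, Complex.neg_re, hf n, neg_zero]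
    have := re_le S hS hiso (-f) e0 horth hf' hv
    rw [inner_neg_left, Complex.neg_re] at this
    linarith
  have hK := (diffK S hS f e0).analyticOnNhd isOpen_U
  -- K is constant
  set V : Set ℂ := {z : ℂ | 0 < z.re} with hV
  have hVo : IsOpen V := isOpen_lt continuous_const Complex.continuous_re
  have hVU : V ⊆ U := fun z hz => by
    have : 0 < z.re := hz
    show -1 / 2 < z.re; linarith
  have hVc : IsPreconnected V := (convex_halfSpace_re_gt 0).isPreconnected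
  have hconst : ∃ w, ∀ z ∈ V, ⟪f, R S z e0⟫_ℂ = w := by
    rcases (hK.mono hVU).is_constant_or_isOpen hVc with h | h
    · exact h
    · exfalso
      have h1 := h V subset_rfl hVo
      have h2 : ⟪f, R S 1 e0⟫_ℂ ∈ (fun v => ⟪f, R S v e0⟫_ℂ) '' V := ⟨1, by simp [hV], rfl⟩
      rw [Metric.isOpen_iff] at h1
      obtain ⟨ε, hε, hball⟩ := h1 _ h2
      have h3 : ⟪f, R S 1 e0⟫_ℂ + ((ε / 2 : ℝ) : ℂ) ∈ Metric.ball (⟪f, R S 1 e0⟫_ℂ) ε := by
        rw [Metric.mem_ball, dist_eq_norm, add_sub_cancel_left, Complex.norm_real, Real.norm_eq_abs,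
          abs_of_pos (by positivity)]
        linarith
      obtain ⟨z, hz, hz2⟩ := hball h3
      have h4 := congrArg Complex.re hz2
      simp only [Complex.add_re, Complex.ofReal_re] at h4
      rw [hre0 z (le_of_lt hz), hre0 1 (by simp)] at h4
      linarith
  obtain ⟨w, hw⟩ := hconst
  -- the constant is zero
  have hw0 : w = 0 := by
    have hlim : Tendsto (fun x : ℝ => ‖f‖ * (‖e0‖ / Real.sqrt (1 + 2 * x))) atTop (𝓝 0) := by
      have h1 : Tendsto (fun x : ℝ => Real.sqrt (1 + 2 * x)) atTop atTop := by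
        apply Real.tendsto_sqrt_atTop.comp
        apply tendsto_atTop_add_const_left
        exact tendsto_id.const_mul_atTop (by norm_num)
      have h2 := h1.const_div_atTop ‖e0‖
      simpa using h2.const_mul ‖f‖
    have hb : ∀ᶠ x : ℝ in atTop, ‖w‖ ≤ ‖f‖ * (‖e0‖ / Real.sqrt (1 + 2 * x)) := by
      filter_upwards [eventually_gt_atTop (0 : ℝ)] with x hx
      rw [← hw (x : ℂ) (by simpa [hV] using hx)]
      refine (norm_inner_le_norm _ _).trans ?_
      gcongr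
      have h1 := norm_R_real S hS hiso e0 horth hx.le
      rw [le_div_iff₀ (Real.sqrt_pos.mpr (by linarith))]
      have h2 : (‖R S (x : ℂ) e0‖ * Real.sqrt (1 + 2 * x)) ^ 2 = ‖e0‖ ^ 2 := by
        rw [mul_pow, Real.sq_sqrt (by linarith), ← h1]; ring
      apply le_of_eq
      exact (pow_left_inj₀ (by positivity) (norm_nonneg _) (by norm_num)).mp h2
    have := ge_of_tendsto hlim hb
    exact norm_le_zero_iff.mp this
  -- so K = 0 on U
  have hKU : ∀ z ∈ U, ⟪f, R S z e0⟫_ℂ = 0 := by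
    have h1 : (fun v => ⟪f, R S v e0⟫_ℂ) =ᶠ[𝓝 1] 0 := by
      filter_upwards [hVo.mem_nhds (show (1 : ℂ) ∈ V by simp [hV])] with z hz
      rw [hw z hz, hw0]; rfl
    exact fun z hz => hK.eqOn_zero_of_preconnected_of_eventuallyEq_zero convex_U.isPreconnected
      (hVU (show (1 : ℂ) ∈ V by simp [hV])) h1 hz
  -- moments vanish
  have hmom : ∀ n : ℕ, ∀ z ∈ U, ⟪f, ((1 - S) ^ n) (R S z e0)⟫_ℂ = 0 := by
    intro n
    induction n with
    | zero => intro z hz; simpa using hKU z hz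
    | succ n ih =>
      -- for z ≠ 0
      have h0U : (0 : ℂ) ∈ U := by show -1 / 2 < (0 : ℂ).re; norm_num
      have hm : ⟪f, ((1 - S) ^ n) e0⟫_ℂ = 0 := by
        have := ih 0 h0U
        rwa [R_zero, one_apply_eq_self] at this
      have hne : ∀ z ∈ U, z ≠ 0 → ⟪f, ((1 - S) ^ (n + 1)) (R S z e0)⟫_ℂ = 0 := by
        intro z hz hz0
        have h := R_apply S hS hz e0
        have h2 := congrArg (fun x => ⟪f, ((1 - S) ^ n) x⟫_ℂ) h
        simp only [map_add, map_smul, inner_add_right, inner_smul_right] at h2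
        rw [ih z hz, hm, zero_add] at h2
        have h3 := (mul_eq_zero.mp h2).resolve_left hz0
        rw [pow_succ, mul_apply_eq_comp]
        simpa using h3
      have hcont : ContinuousOn (fun z => ⟪f, ((1 - S) ^ (n + 1)) (R S z e0)⟫_ℂ) U := by
        intro z hz
        have h1 := (differentiableAt_R S hS hz).continuousAt
        have h2 : ContinuousAt (fun z => (innerSL ℂ f) (((1 - S) ^ (n + 1)) ((ContinuousLinearMap.apply ℂ H e0) (R S z)))) z :=
          (innerSL ℂ f).continuous.continuousAt.comp (((1 - S) ^ (n + 1)).continuous.continuousAt.comp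
            ((ContinuousLinearMap.apply ℂ H e0).continuous.continuousAt.comp h1))
        have h3 : ContinuousAt (fun z => ⟪f, ((1 - S) ^ (n + 1)) (R S z e0)⟫_ℂ) z := by
          simpa using h2
        exact h3.continuousWithinAt
      intro z hz
      by_cases hz0 : z = 0
      · subst hz0
        have hc : ContinuousAt (fun z => ⟪f, ((1 - S) ^ (n + 1)) (R S z e0)⟫_ℂ) 0 :=
          (hcont 0 h0U).continuousAt (isOpen_U.mem_nhds h0U)
        have h1 : Tendsto (fun z => ⟪f, ((1 - S) ^ (n + 1)) (R S z e0)⟫_ℂ) (𝓝[≠] 0)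
            (𝓝 (⟪f, ((1 - S) ^ (n + 1)) (R S 0 e0)⟫_ℂ)) := hc.tendsto.mono_left nhdsWithin_le_nhds
        have h2 : Tendsto (fun z => ⟪f, ((1 - S) ^ (n + 1)) (R S z e0)⟫_ℂ) (𝓝[≠] 0) (𝓝 0) := by
          apply tendsto_const_nhds.congr'
          have : U ∈ 𝓝[≠] (0 : ℂ) := nhdsWithin_le_nhds (isOpen_U.mem_nhds h0U)
          filter_upwards [this, self_mem_nhdsWithin] with z hz hz0
          exact (hne z hz hz0).symm
        exact tendsto_nhds_unique h1 h2
      · exact hne z hz hz0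
  have h0U : (0 : ℂ) ∈ U := by show -1 / 2 < (0 : ℂ).re; norm_num
  have hmom0 : ∀ n : ℕ, ⟪f, ((1 - S) ^ n) e0⟫_ℂ = 0 := by
    intro n
    have := hmom n 0 h0U
    rwa [R_zero, one_apply_eq_self] at this
  apply hdense
  intro n
  have e : S ^ n = ∑ j ∈ Finset.range (n + 1), ((-1 : ℂ) ^ j * (n.choose j : ℂ)) • (1 - S) ^ j := by
    have h1 : S = (-(1 - S)) + 1 := by abel
    conv_lhs => rw [h1]
    rw [(Commute.one_right (-(1 - S))).add_pow]
    apply Finset.sum_congr rfl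
    intro j _
    rw [one_pow, mul_one, neg_pow, mul_smul]
    have h2 : ((n.choose j : ℂ)) • (1 - S) ^ j = (1 - S) ^ j * (n.choose j : H →L[ℂ] H) := by
      rw [← nsmul_eq_mul', Nat.cast_smul_eq_nsmul]
    rw [h2, mul_assoc]
    rcases Nat.even_or_odd j with hj | hj
    · rw [hj.neg_one_pow, hj.neg_one_pow, one_smul, one_mul]
    · rw [hj.neg_one_pow, hj.neg_one_pow, neg_smul, one_smul, neg_mul, one_mul]
  rw [e, sum_apply, inner_sum]
  apply Finset.sum_eq_zero
  intro j _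
  rw [smul_apply, inner_smul_right, hmom0 j, mul_zero]

end B

end PartB

section PartC

open MeasureTheory Set Filter Topology Complex

open scoped ENNReal InnerProductSpace

namespace D

/-- multiplier -/
noncomputable def p (θ : ℝ) : ℂ := 16 - (I / 2) * (1 - Complex.exp (θ * I))

lemma p_eq (θ : ℝ) : p θ = ((16 - Real.sin θ / 2 : ℝ) : ℂ) + ((-(1 - Real.cos θ) / 2 : ℝ) : ℂ) * I := by
  unfold p
  rw [Complex.exp_mul_I, ← Complex.ofReal_cos, ← Complex.ofReal_sin]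
  apply Complex.ext
  · simp
    ring
  · simp
    ring

lemma norm_p_le (θ : ℝ) : ‖p θ‖ ≤ 17 := by
  unfold p
  have h1 : ‖(1 : ℂ) - Complex.exp (θ * I)‖ ≤ 2 := by
    calc _ ≤ ‖(1 : ℂ)‖ + ‖Complex.exp (θ * I)‖ := norm_sub_le _ _
      _ = 2 := by rw [Complex.norm_exp_ofReal_mul_I]; norm_num
  calc _ ≤ ‖(16 : ℂ)‖ + ‖(I / 2) * (1 - Complex.exp (θ * I))‖ := norm_sub_le _ _
    _ = 16 + 1 / 2 * ‖(1 : ℂ) - Complex.exp (θ * I)‖ := by rw [norm_mul]; simp
    _ ≤ 17 := by linarith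

lemma p_lt (θ : ℝ) (h0 : 0 < θ) (h1 : θ ≤ 1) : ‖p θ‖ ≤ 16 - 37 / 100 * θ := by
  have hs : θ - θ ^ 3 / 6 < Real.sin θ := Real.sin_gt_sub_cube h0
  have hs1 : Real.sin θ ≤ 1 := Real.sin_le_one θ
  have hc : 1 - Real.cos θ ≤ θ ^ 2 / 2 := by
    have := Real.one_sub_sq_div_two_le_cos (x := θ)
    linarith
  have hc0 : 0 ≤ 1 - Real.cos θ := by linarith [Real.cos_le_one θ]
  have hs2 : 3 / 4 * θ ≤ Real.sin θ := by
    have : θ ^ 3 ≤ θ := by
      have : θ ^ 3 ≤ θ ^ 1 := pow_le_pow_of_le_one h0.le h1 (by norm_num)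
      simpa using this
    linarith
  apply abs_le_of_sq_le_sq' _ (by linarith) |>.2
  rw [← Complex.normSq_eq_norm_sq, p_eq, Complex.normSq_add_mul_I]
  have h3 : (16 - Real.sin θ / 2) ^ 2 ≤ (16 - 3 / 8 * θ) ^ 2 := by
    apply pow_le_pow_left₀ (by linarith)
    linarith
  have h4 : (-(1 - Real.cos θ) / 2) ^ 2 ≤ θ ^ 2 / 16 := by
    have : (-(1 - Real.cos θ) / 2) ^ 2 ≤ (θ ^ 2 / 4) ^ 2 := by
      rw [neg_div, neg_sq]
      apply pow_le_pow_left₀ (by linarith)
      linarith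
    have h5 : θ ^ 4 ≤ θ ^ 2 := pow_le_pow_of_le_one h0.le h1 (by norm_num)
    nlinarith
  nlinarith [sq_nonneg θ]

lemma norm_one_add_pow_sub_one_le (z : ℂ) (n : ℕ) : ‖(1 + z) ^ n - 1‖ ≤ (1 + ‖z‖) ^ n - 1 := by
  induction n with
  | zero => simp
  | succ n ih =>
    have e : (1 + z) ^ (n + 1) - 1 = (1 + z) * ((1 + z) ^ n - 1) + z := by ring
    rw [e]
    calc _ ≤ ‖(1 + z) * ((1 + z) ^ n - 1)‖ + ‖z‖ := norm_add_le _ _
      _ = ‖1 + z‖ * ‖(1 + z) ^ n - 1‖ + ‖z‖ := by rw [norm_mul]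
      _ ≤ (1 + ‖z‖) * ((1 + ‖z‖) ^ n - 1) + ‖z‖ := by
        gcongr
        calc ‖1 + z‖ ≤ ‖(1 : ℂ)‖ + ‖z‖ := norm_add_le _ _
          _ = 1 + ‖z‖ := by simp
      _ = _ := by ring

lemma re_pow_ge (a b : ℝ) (ha : 0 < a) (n : ℕ) (hn : n * (|b| / a) ≤ 1 / 62) :
    1 / 2 * a ^ n ≤ (((a : ℂ) + (b : ℂ) * I) ^ n).re := by
  have e : (a : ℂ) + (b : ℂ) * I = (a : ℂ) * (1 + ((b / a : ℝ) : ℂ) * I) := by
    have : (a : ℂ) ≠ 0 := by exact_mod_cast ha.ne'
    push_cast
    field_simp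
  rw [e, mul_pow, ← Complex.ofReal_pow, Complex.re_ofReal_mul]
  have h1 := norm_one_add_pow_sub_one_le (((b / a : ℝ) : ℂ) * I) n
  have h2 : ‖((b / a : ℝ) : ℂ) * I‖ = |b| / a := by
    rw [norm_mul, Complex.norm_I, mul_one, Complex.norm_real, Real.norm_eq_abs, abs_div, abs_of_pos ha]
  rw [h2] at h1
  have h3 : (1 + |b| / a) ^ n ≤ Real.exp (1 / 62) := by
    calc (1 + |b| / a) ^ n ≤ (Real.exp (|b| / a)) ^ n := by
          gcongr
          rw [add_comm]; exact Real.add_one_le_exp _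
      _ = Real.exp (n * (|b| / a)) := by rw [← Real.exp_nat_mul]
      _ ≤ _ := Real.exp_le_exp.mpr hn
  have h4 : Real.exp (1 / 62) ≤ 3 / 2 := by
    have h5 : 1 - 1 / 62 ≤ Real.exp (-(1 / 62)) := by
      have := Real.add_one_le_exp (-(1 / 62 : ℝ))
      linarith
    rw [Real.exp_neg] at h5
    have h6 : 0 < Real.exp (1 / 62) := Real.exp_pos _
    have h7 : (1 - 1 / 62) * Real.exp (1 / 62) ≤ 1 := by
      calc (1 - 1 / 62) * Real.exp (1 / 62) ≤ (Real.exp (1 / 62))⁻¹ * Real.exp (1 / 62) := by gcongr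
        _ = 1 := inv_mul_cancel₀ h6.ne'
    linarith
  have h5 : -(1 / 2 : ℝ) ≤ ((1 + ((b / a : ℝ) : ℂ) * I) ^ n - 1).re := by
    have := Complex.abs_re_le_norm ((1 + ((b / a : ℝ) : ℂ) * I) ^ n - 1)
    have := neg_le_of_abs_le (this.trans h1)
    linarith
  rw [Complex.sub_re, Complex.one_re] at h5
  have h6 : 0 < a ^ n := pow_pos ha n
  nlinarith

/-- pointwise lower bound -/
lemma pointwise (n : ℕ) (hn : 1 ≤ n) (θ : ℝ) (h0 : 0 < θ) (h1 : θ ≤ 1) :
    (if θ ≤ 1 / (2 * Real.sqrt n) then 1 / 2 * (16 - 1 / (4 * Real.sqrt n)) ^ n else 0) -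
      (16 - 37 / 100 * (1 / Real.sqrt n)) ^ n ≤ (p θ ^ n).re := by
  have hn' : (1 : ℝ) ≤ n := by exact_mod_cast hn
  have hs : 1 ≤ Real.sqrt n := by
    rw [show (1 : ℝ) = Real.sqrt 1 by simp]
    exact Real.sqrt_le_sqrt hn'
  have hs0 : 0 < Real.sqrt n := by linarith
  have hsq : Real.sqrt n * Real.sqrt n = n := Real.mul_self_sqrt (by linarith)
  have hinv : 1 / Real.sqrt n ≤ 1 := by rw [div_le_one hs0]; exact hs
  have hinv0 : 0 < 1 / Real.sqrt n := by positivity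
  have hpow : 0 ≤ (16 - 37 / 100 * (1 / Real.sqrt n)) ^ n := by
    apply pow_nonneg; linarith
  have hsin1 := Real.sin_le_one θ
  by_cases hθ : θ ≤ 1 / Real.sqrt n
  · -- phase region
    have hp : 1 / 2 * (16 - Real.sin θ / 2) ^ n ≤ (p θ ^ n).re := by
      rw [p_eq]
      apply re_pow_ge _ _ (by linarith)
      have hc : |(-(1 - Real.cos θ) / 2)| ≤ θ ^ 2 / 4 := by
        have h2 : 1 - Real.cos θ ≤ θ ^ 2 / 2 := by
          have := Real.one_sub_sq_div_two_le_cos (x := θ)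
          linarith
        have h3 : 0 ≤ 1 - Real.cos θ := by linarith [Real.cos_le_one θ]
        rw [neg_div, abs_neg, abs_of_nonneg (by linarith)]
        linarith
      calc (n : ℝ) * (|(-(1 - Real.cos θ) / 2)| / (16 - Real.sin θ / 2)) ≤ n * ((θ ^ 2 / 4) / (31 / 2)) := by
            gcongr
            linarith
        _ ≤ n * (((1 / Real.sqrt n) ^ 2 / 4) / (31 / 2)) := by gcongr
        _ = 1 / 62 := by
          have : (1 / Real.sqrt n) ^ 2 = 1 / n := by
            rw [div_pow, one_pow, sq, hsq]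
          rw [this]
          field_simp
          norm_num
    split_ifs with h
    · have hsin : Real.sin θ ≤ θ := Real.sin_le h0.le
      have h2 : 1 / (2 * Real.sqrt n) = 1 / 2 * (1 / Real.sqrt n) := by field_simp
      have h3 : 1 / (4 * Real.sqrt n) = 1 / 4 * (1 / Real.sqrt n) := by field_simp
      rw [h2] at h
      rw [h3]
      have h4 : 1 / 2 * (16 - 1 / 4 * (1 / Real.sqrt n)) ^ n ≤ 1 / 2 * (16 - Real.sin θ / 2) ^ n := by
        gcongr
        · linarith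
        · linarith
      linarith
    · have : 0 ≤ 1 / 2 * (16 - Real.sin θ / 2) ^ n := by
        have : 0 ≤ 16 - Real.sin θ / 2 := by linarith
        positivity
      linarith
  · push Not at hθ
    have hh : ¬ θ ≤ 1 / (2 * Real.sqrt n) := by
      intro h
      have h2 : 1 / (2 * Real.sqrt n) = 1 / 2 * (1 / Real.sqrt n) := by field_simp
      rw [h2] at h
      linarith
    rw [if_neg hh]
    have h2 := p_lt θ h0 h1
    have h3 : ‖p θ ^ n‖ ≤ (16 - 37 / 100 * (1 / Real.sqrt n)) ^ n := by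
      rw [norm_pow]
      gcongr
      linarith
    have h4 := Complex.abs_re_le_norm (p θ ^ n)
    have h5 := neg_le_of_abs_le (h4.trans h3)
    linarith

/-- lower bound for the mass near `0` -/
lemma mass_lower (g : ℝ → ℝ) (hg : IntegrableOn g (Ioc 0 1)) (hg0 : ∀ θ, 0 ≤ g θ)
    (hpos : ∀ᵐ θ ∂(volume.restrict (Ioc (0 : ℝ) 1)), 0 < g θ)
    (hlog : IntegrableOn (fun θ => g θ - Real.log (g θ)) (Ioc 0 1)) {σ : ℝ} (h0 : 0 < σ) (h1 : σ ≤ 1) :
    σ * Real.exp (-((∫ θ in Ioc 0 σ, (g θ - Real.log (g θ))) / σ)) ≤ ∫ θ in Ioc 0 σ, g θ := by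
  have hsub : Ioc (0 : ℝ) σ ⊆ Ioc 0 1 := Ioc_subset_Ioc_right h1
  have hgσ : IntegrableOn g (Ioc 0 σ) := hg.mono_set hsub
  have hlσ : IntegrableOn (fun θ => g θ - Real.log (g θ)) (Ioc 0 σ) := hlog.mono_set hsub
  have hposσ : ∀ᵐ θ ∂(volume.restrict (Ioc (0 : ℝ) σ)), 0 < g θ :=
    ae_mono (Measure.restrict_mono hsub le_rfl) hpos
  set G := ∫ θ in Ioc 0 σ, g θ with hG
  set L := ∫ θ in Ioc 0 σ, (g θ - Real.log (g θ)) with hL
  have hvol : (volume.restrict (Ioc (0 : ℝ) σ)) univ ≠ 0 := by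
    rw [Measure.restrict_apply_univ, Real.volume_Ioc]
    simpa using h0
  have hGpos : 0 < G := by
    rw [hG]
    rw [integral_pos_iff_support_of_nonneg_ae (Eventually.of_forall hg0) hgσ]
    by_contra hcon
    have hz : (volume.restrict (Ioc (0 : ℝ) σ)) (Function.support g) = 0 := by
      simpa using hcon
    have h2 : ∀ᵐ θ ∂(volume.restrict (Ioc (0 : ℝ) σ)), θ ∉ Function.support g := by
      exact measure_eq_zero_iff_ae_notMem.mp hz
    have h3 : ∀ᵐ θ ∂(volume.restrict (Ioc (0 : ℝ) σ)), False := by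
      filter_upwards [h2, hposσ] with θ ha hb
      exact ha (by simpa using hb.ne')
    rw [Filter.eventually_false_iff_eq_bot, ae_eq_bot] at h3
    exact hvol (by rw [h3]; rfl)
  set c := G / σ with hc
  have hcpos : 0 < c := by positivity
  have hlint : IntegrableOn (fun θ => Real.log (g θ)) (Ioc 0 σ) := by
    have := hgσ.sub hlσ
    refine this.congr (Eventually.of_forall fun θ => ?_)
    simp
  have hptw : ∫ θ in Ioc 0 σ, Real.log (g θ) ≤ ∫ θ in Ioc 0 σ, (g θ / c - 1 + Real.log c) := by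
    apply integral_mono_ae hlint
    · apply Integrable.add
      · apply Integrable.sub (hgσ.div_const c)
        exact integrable_const _
      · exact integrable_const _
    · filter_upwards [hposσ] with θ hθ
      have := Real.log_le_sub_one_of_pos (show 0 < g θ / c by positivity)
      rw [Real.log_div hθ.ne' hcpos.ne'] at this
      linarith
  have hcomp : ∫ θ in Ioc 0 σ, (g θ / c - 1 + Real.log c) = σ * Real.log c := by
    rw [integral_add, integral_sub, integral_div]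
    · rw [← hG]
      simp only [integral_const, smul_eq_mul, measureReal_restrict_apply_univ, Real.volume_real_Ioc_of_le h0.le]
      rw [hc]
      field_simp
      ring
    · exact hgσ.div_const c
    · exact integrable_const _
    · apply Integrable.sub (hgσ.div_const c)
      exact integrable_const _
    · exact integrable_const _
  have hLeq : L = G - ∫ θ in Ioc 0 σ, Real.log (g θ) := by
    rw [hL, hG, integral_sub hgσ hlint]
  have h2 : -L ≤ σ * Real.log c := by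
    rw [← hcomp]
    linarith
  have h3 : -(L / σ) ≤ Real.log c := by
    rw [← neg_div, div_le_iff₀ h0]
    linarith
  have h4 : Real.exp (-(L / σ)) ≤ c := by
    calc _ ≤ Real.exp (Real.log c) := Real.exp_le_exp.mpr h3
      _ = c := Real.exp_log hcpos
  calc σ * Real.exp (-(L / σ)) ≤ σ * c := by gcongr
    _ = G := by rw [hc]; field_simp

lemma tendsto_sqrt : Tendsto (fun n : ℕ => Real.sqrt n) atTop atTop :=
  Real.tendsto_sqrt_atTop.comp tendsto_natCast_atTop_atTop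

lemma L_tendsto (f : ℝ → ℝ) (hf : IntegrableOn f (Ioc 0 1)) :
    Tendsto (fun n : ℕ => ∫ θ in Ioc 0 (1 / (2 * Real.sqrt n)), f θ) atTop (𝓝 0) := by
  have hσ : Tendsto (fun n : ℕ => 1 / (2 * Real.sqrt n)) atTop (𝓝 0) := by
    have h1 := (tendsto_sqrt.const_mul_atTop (show (0 : ℝ) < 2 by norm_num)).inv_tendsto_atTop
    refine h1.congr (fun n => by simp)
  have h1 : Tendsto ((volume.restrict (Ioc (0 : ℝ) 1)) ∘ fun n : ℕ => Ioc (0 : ℝ) (1 / (2 * Real.sqrt n))) atTop (𝓝 0) := by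
    have h2 : Tendsto (fun n : ℕ => ENNReal.ofReal (1 / (2 * Real.sqrt n))) atTop (𝓝 0) := by
      have := ENNReal.tendsto_ofReal hσ
      simpa using this
    refine tendsto_of_tendsto_of_tendsto_of_le_of_le tendsto_const_nhds h2 (fun _ => zero_le) (fun n => ?_)
    simp only [Function.comp]
    calc _ ≤ volume (Ioc (0 : ℝ) (1 / (2 * Real.sqrt n))) := Measure.restrict_apply_le _ _
      _ = _ := by rw [Real.volume_Ioc, sub_zero]
  have h2 := Integrable.tendsto_setIntegral_nhds_zero hf h1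
  have h3 : ∀ᶠ n : ℕ in atTop, 1 / (2 * Real.sqrt n) ≤ 1 := by
    filter_upwards [hσ.eventually (gt_mem_nhds (show (0 : ℝ) < 1 by norm_num))] with n hn using hn.le
  refine h2.congr' ?_
  filter_upwards [h3] with n hn
  rw [Measure.restrict_restrict measurableSet_Ioc, Ioc_inter_Ioc]
  congr 2
  simp only [max_self]
  rw [min_eq_left hn]

lemma p_cont : Continuous p := by
  unfold p
  fun_prop

lemma integrable_pg (g : ℝ → ℝ) (hg : IntegrableOn g (Ioc 0 1)) (n : ℕ) :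
    IntegrableOn (fun θ => (p θ ^ n).re * g θ) (Ioc 0 1) := by
  apply Integrable.bdd_mul (c := 17 ^ n) hg
  · exact (Complex.continuous_re.comp (p_cont.pow n)).aestronglyMeasurable
  · refine Eventually.of_forall fun θ => ?_
    rw [Real.norm_eq_abs]
    refine (Complex.abs_re_le_norm _).trans ?_
    rw [norm_pow]
    gcongr
    exact norm_p_le θ

theorem key (g : ℝ → ℝ) (hg : IntegrableOn g (Ioc 0 1)) (hg0 : ∀ θ, 0 ≤ g θ)
    (hpos : ∀ᵐ θ ∂(volume.restrict (Ioc (0 : ℝ) 1)), 0 < g θ)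
    (hlog : IntegrableOn (fun θ => g θ - Real.log (g θ)) (Ioc 0 1)) :
    ∃ C : ℝ, ∀ n : ℕ, -C ≤ ∫ θ in Ioc 0 1, (p θ ^ n).re * g θ := by
  set G1 := ∫ θ in Ioc 0 1, g θ with hG1
  have hG1nn : 0 ≤ G1 := integral_nonneg hg0
  -- for large `n` the integral is nonnegative
  have hL := L_tendsto _ hlog
  have hev1 : ∀ᶠ n : ℕ in atTop, (∫ θ in Ioc 0 (1 / (2 * Real.sqrt n)), (g θ - Real.log (g θ))) ≤ 1 / 1000 := by
    filter_upwards [hL.eventually (gt_mem_nhds (show (0 : ℝ) < 1 / 1000 by norm_num))] with n hn using hn.le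
  have hev2 : ∀ᶠ n : ℕ in atTop, G1 ≤ 1 / (4 * Real.sqrt n) * Real.exp (5 / 1000 * Real.sqrt n) := by
    have h1 : Tendsto (fun x : ℝ => Real.exp x / x ^ 1) atTop atTop := Real.tendsto_exp_div_pow_atTop 1
    have h2 : Tendsto (fun n : ℕ => 5 / 1000 * Real.sqrt n) atTop atTop :=
      tendsto_sqrt.const_mul_atTop (by norm_num)
    have h3 := (h1.comp h2).const_mul_atTop (show (0 : ℝ) < 5 / 4000 by norm_num)
    filter_upwards [h3.eventually_ge_atTop G1, eventually_ge_atTop 1] with n hn hn1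
    refine hn.trans (le_of_eq ?_)
    simp only [Function.comp, pow_one]
    have : 0 < Real.sqrt n := Real.sqrt_pos.mpr (by exact_mod_cast hn1)
    field_simp
    norm_num
  have hev : ∀ᶠ n : ℕ in atTop, 0 ≤ ∫ θ in Ioc 0 1, (p θ ^ n).re * g θ := by
    filter_upwards [hev1, hev2, eventually_ge_atTop 1] with n h1 h2 hn1
    have hn' : (1 : ℝ) ≤ n := by exact_mod_cast hn1
    have hs : 1 ≤ Real.sqrt n := by
      rw [show (1 : ℝ) = Real.sqrt 1 by simp]
      exact Real.sqrt_le_sqrt hn'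
    have hs0 : 0 < Real.sqrt n := by linarith
    have hsq : Real.sqrt n * Real.sqrt n = n := Real.mul_self_sqrt (by linarith)
    set s := Real.sqrt n with hsdef
    have hσ0 : 0 < 1 / (2 * s) := by positivity
    have hσ1 : 1 / (2 * s) ≤ 1 := by
      rw [div_le_one (by positivity)]; linarith
    have hm := mass_lower g hg hg0 hpos hlog hσ0 hσ1
    have hm2 : 1 / (2 * s) * Real.exp (-(2 / 1000 * s)) ≤ ∫ θ in Ioc 0 (1 / (2 * s)), g θ := by
      refine le_trans ?_ hm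
      gcongr
      rw [div_le_iff₀ hσ0]
      calc _ ≤ 1 / 1000 := h1
        _ = _ := by field_simp
    -- integrate the pointwise bound
    have hint : ∫ θ in Ioc 0 1, ((Ioc 0 (1 / (2 * s))).indicator (fun θ => (1 / 2 * (16 - 1 / (4 * s)) ^ n) * g θ) θ
        - (16 - 37 / 100 * (1 / s)) ^ n * g θ) ≤ ∫ θ in Ioc 0 1, (p θ ^ n).re * g θ := by
      apply setIntegral_mono_on
      · apply Integrable.sub
        · exact Integrable.indicator (hg.const_mul _) measurableSet_Ioc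
        · exact hg.const_mul _
      · exact integrable_pg g hg n
      · exact measurableSet_Ioc
      · intro θ hθ
        have hp := pointwise n hn1 θ hθ.1 hθ.2
        rw [← hsdef] at hp
        have hp2 := mul_le_mul_of_nonneg_right hp (hg0 θ)
        refine le_trans (le_of_eq ?_) hp2
        by_cases h : θ ≤ 1 / (2 * s)
        · rw [if_pos h, indicator_of_mem (show θ ∈ Ioc 0 (1 / (2 * s)) from ⟨hθ.1, h⟩)]
          ring
        · rw [if_neg h, indicator_of_notMem (fun hc => h hc.2)]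
          ring
    have hint2 : ∫ θ in Ioc 0 1, ((Ioc 0 (1 / (2 * s))).indicator (fun θ => (1 / 2 * (16 - 1 / (4 * s)) ^ n) * g θ) θ
        - (16 - 37 / 100 * (1 / s)) ^ n * g θ) = (1 / 2 * (16 - 1 / (4 * s)) ^ n) * (∫ θ in Ioc 0 (1 / (2 * s)), g θ)
        - (16 - 37 / 100 * (1 / s)) ^ n * G1 := by
      rw [integral_sub, integral_indicator measurableSet_Ioc, Measure.restrict_restrict measurableSet_Ioc,
        integral_const_mul, integral_const_mul]
      · have : Ioc (0 : ℝ) (1 / (2 * s)) ∩ Ioc 0 1 = Ioc 0 (1 / (2 * s)) :=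
          inter_eq_left.mpr (Ioc_subset_Ioc_right hσ1)
        rw [this]
      · exact Integrable.indicator (hg.const_mul _) measurableSet_Ioc
      · exact hg.const_mul _
    rw [hint2] at hint
    refine le_trans ?_ hint
    -- compare
    have hinv : 1 / s ≤ 1 := by rw [div_le_one hs0]; exact hs
    have hinv0 : 0 < 1 / s := by positivity
    have e4 : 1 / (4 * s) = 1 / 4 * (1 / s) := by field_simp
    have hA0 : 0 < 16 - 1 / (4 * s) := by rw [e4]; linarith
    have hratio : 16 - 37 / 100 * (1 / s) ≤ (16 - 1 / (4 * s)) * Real.exp (-(7 / 1000 * (1 / s))) := by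
      have h3 : 1 - 7 / 1000 * (1 / s) ≤ Real.exp (-(7 / 1000 * (1 / s))) := by
        have := Real.add_one_le_exp (-(7 / 1000 * (1 / s)))
        linarith
      calc 16 - 37 / 100 * (1 / s) ≤ (16 - 1 / (4 * s)) * (1 - 7 / 1000 * (1 / s)) := by
            rw [e4]; nlinarith [sq_nonneg (1 / s)]
        _ ≤ _ := by gcongr
    have hpow : (16 - 37 / 100 * (1 / s)) ^ n ≤ (16 - 1 / (4 * s)) ^ n * Real.exp (-(7 / 1000 * s)) := by
      calc _ ≤ ((16 - 1 / (4 * s)) * Real.exp (-(7 / 1000 * (1 / s)))) ^ n := by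
            apply pow_le_pow_left₀ (by linarith) hratio
        _ = _ := by
          rw [mul_pow, ← Real.exp_nat_mul]
          congr 2
          rw [← hsq]
          field_simp
    have hAn : 0 < (16 - 1 / (4 * s)) ^ n := pow_pos hA0 n
    have h5 : (16 - 37 / 100 * (1 / s)) ^ n * G1 ≤ (16 - 1 / (4 * s)) ^ n * (1 / (4 * s) * Real.exp (-(2 / 1000 * s))) := by
      calc _ ≤ ((16 - 1 / (4 * s)) ^ n * Real.exp (-(7 / 1000 * s))) * (1 / (4 * s) * Real.exp (5 / 1000 * s)) := by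
            gcongr
        _ = (16 - 1 / (4 * s)) ^ n * (1 / (4 * s) * (Real.exp (-(7 / 1000 * s)) * Real.exp (5 / 1000 * s))) := by ring
        _ = _ := by
          rw [← Real.exp_add]
          congr 3
          ring
    have h6 : (16 - 1 / (4 * s)) ^ n * (1 / (4 * s) * Real.exp (-(2 / 1000 * s))) ≤
        1 / 2 * (16 - 1 / (4 * s)) ^ n * ∫ θ in Ioc 0 (1 / (2 * s)), g θ := by
      calc _ = 1 / 2 * (16 - 1 / (4 * s)) ^ n * (1 / (2 * s) * Real.exp (-(2 / 1000 * s))) := by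
            field_simp
            ring
        _ ≤ _ := by gcongr
    linarith
  -- bound for small `n`
  obtain ⟨n0, hn0⟩ := eventually_atTop.mp hev
  refine ⟨17 ^ n0 * G1, fun n => ?_⟩
  by_cases h : n0 ≤ n
  · have := hn0 n h
    have h2 : 0 ≤ (17 : ℝ) ^ n0 * G1 := by positivity
    linarith
  · push Not at h
    have h1 : ‖∫ θ in Ioc 0 1, (p θ ^ n).re * g θ‖ ≤ ∫ θ in Ioc 0 1, 17 ^ n * g θ := by
      apply norm_integral_le_of_norm_le (hg.const_mul _)
      refine Eventually.of_forall fun θ => ?_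
      rw [norm_mul, Real.norm_eq_abs, Real.norm_eq_abs, abs_of_nonneg (hg0 θ)]
      have : |(p θ ^ n).re| ≤ 17 ^ n := by
        refine (Complex.abs_re_le_norm _).trans ?_
        rw [norm_pow]
        gcongr
        exact norm_p_le θ
      exact mul_le_mul_of_nonneg_right this (hg0 θ)
    rw [integral_const_mul] at h1
    have h2 : (17 : ℝ) ^ n * G1 ≤ 17 ^ n0 * G1 := by
      gcongr
      norm_num
    have h3 := neg_le_of_abs_le ((Real.norm_eq_abs _ ▸ h1).trans h2)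
    exact h3

lemma fatou_log {α : Type*} [MeasurableSpace α] (μ : Measure α) (q : ℕ → α → ℂ) (hq : ∀ n, Measurable (q n))
    (hne : ∀ᵐ x ∂μ, ∀ n, q n x ≠ 0) (F : α → ℂ)
    (hF : ∀ᵐ x ∂μ, Tendsto (fun n => q n x) atTop (𝓝 (F x))) (C : ENNReal) (hCt : C ≠ ⊤)
    (hC : ∀ n, ∫⁻ x, ENNReal.ofReal (‖q n x‖ ^ 2 - Real.log (‖q n x‖ ^ 2)) ∂μ ≤ C) :
    (∀ᵐ x ∂μ, F x ≠ 0) ∧ ∫⁻ x, ENNReal.ofReal (‖F x‖ ^ 2 - Real.log (‖F x‖ ^ 2)) ∂μ ≤ C := by
  have hmeas : ∀ n, Measurable (fun x => ENNReal.ofReal (‖q n x‖ ^ 2 - Real.log (‖q n x‖ ^ 2))) := by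
    intro n
    have := hq n
    fun_prop
  have h1 : ∫⁻ x, liminf (fun n => ENNReal.ofReal (‖q n x‖ ^ 2 - Real.log (‖q n x‖ ^ 2))) atTop ∂μ ≤ C := by
    refine (lintegral_liminf_le hmeas).trans ?_
    calc _ ≤ liminf (fun _ : ℕ => C) atTop := liminf_le_liminf (Eventually.of_forall hC)
      _ = C := liminf_const C
  have h2 : ∀ᵐ x ∂μ, liminf (fun n => ENNReal.ofReal (‖q n x‖ ^ 2 - Real.log (‖q n x‖ ^ 2))) atTop < ⊤ := by
    apply ae_lt_top
    · exact Measurable.liminf hmeas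
    · exact (h1.trans_lt hCt.lt_top).ne
  have h3 : ∀ᵐ x ∂μ, F x ≠ 0 := by
    filter_upwards [h2, hne, hF] with x hx hnx hFx h0
    apply hx.ne
    apply Tendsto.liminf_eq
    apply ENNReal.tendsto_ofReal_nhds_top.mpr
    rw [h0] at hFx
    have h4 : Tendsto (fun n => ‖q n x‖ ^ 2) atTop (𝓝 0) := by
      have := hFx.norm.pow 2
      simpa using this
    have h5 : Tendsto (fun n => ‖q n x‖ ^ 2) atTop (𝓝[>] 0) := by
      apply tendsto_nhdsWithin_iff.mpr
      refine ⟨h4, Eventually.of_forall fun n => ?_⟩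
      have := norm_pos_iff.mpr (hnx n)
      exact pow_pos this 2
    have h6 := Real.tendsto_log_nhdsGT_zero.comp h5
    have h7 := tendsto_neg_atBot_atTop.comp h6
    have h8 := h4.add_atTop h7
    refine h8.congr (fun n => ?_)
    simp only [Function.comp]
    ring
  refine ⟨h3, ?_⟩
  refine le_trans (le_of_eq ?_) h1
  apply lintegral_congr_ae
  filter_upwards [h3, hF] with x hx hFx
  symm
  apply Tendsto.liminf_eq
  apply ENNReal.tendsto_ofReal
  have h4 := hFx.norm.pow 2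
  have h5 : ‖F x‖ ^ 2 ≠ 0 := pow_ne_zero 2 (norm_ne_zero_iff.mpr hx)
  exact h4.sub (h4.log h5)

/-- the square summable sequence space -/
abbrev L2 : Type := lp (fun _ : ℕ => ℂ) 2

/-- measure on one period -/
noncomputable def μ : Measure ℝ := volume.restrict (Ioc 0 (2 * Real.pi))

instance : IsFiniteMeasure μ := by unfold μ; infer_instance

/-- normalised exponentials -/
noncomputable def ef (n : ℕ) (θ : ℝ) : ℂ := (((Real.sqrt (2 * Real.pi))⁻¹ : ℝ) : ℂ) * Complex.exp (((n * θ : ℝ) : ℂ) * I)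

lemma ef_cont (n : ℕ) : Continuous (ef n) := by unfold ef; fun_prop

lemma norm_ef (n : ℕ) (θ : ℝ) : ‖ef n θ‖ = (Real.sqrt (2 * Real.pi))⁻¹ := by
  unfold ef
  rw [norm_mul, Complex.norm_exp_ofReal_mul_I, mul_one, Complex.norm_real, Real.norm_eq_abs, abs_of_nonneg (by positivity)]

lemma memLp_ef (n : ℕ) : MemLp (ef n) 2 μ :=
  MemLp.of_bound (ef_cont n).aestronglyMeasurable _ (Eventually.of_forall fun θ => (norm_ef n θ).le)

/-- exponentials in `L²` -/
noncomputable def E (n : ℕ) : Lp ℂ 2 μ := (memLp_ef n).toLp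

lemma orthonormal_E : Orthonormal ℂ E := by
  rw [orthonormal_iff_ite]
  intro i j
  rw [MeasureTheory.L2.inner_def]
  have h1 : ∫ a, ⟪E i a, E j a⟫_ℂ ∂μ = ∫ θ, (starRingEnd ℂ (ef i θ)) * ef j θ ∂μ := by
    apply integral_congr_ae
    filter_upwards [(memLp_ef i).coeFn_toLp, (memLp_ef j).coeFn_toLp] with θ h1 h2
    have h1' : E i θ = ef i θ := h1
    have h2' : E j θ = ef j θ := h2
    rw [h1', h2']
    simp [RCLike.inner_apply, mul_comm]
  rw [h1]
  have h2 : ∀ θ, (starRingEnd ℂ (ef i θ)) * ef j θ = ((2 * Real.pi : ℝ) : ℂ)⁻¹ * Complex.exp ((((j : ℝ) - i : ℝ) : ℂ) * I * θ) := by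
    intro θ
    unfold ef
    rw [map_mul, Complex.conj_ofReal, ← Complex.exp_conj, map_mul, Complex.conj_I, Complex.conj_ofReal]
    have hs : (((Real.sqrt (2 * Real.pi))⁻¹ : ℝ) : ℂ) * (((Real.sqrt (2 * Real.pi))⁻¹ : ℝ) : ℂ) = ((2 * Real.pi : ℝ) : ℂ)⁻¹ := by
      rw [← Complex.ofReal_mul, ← mul_inv, Real.mul_self_sqrt (by positivity), Complex.ofReal_inv]
    calc _ = ((((Real.sqrt (2 * Real.pi))⁻¹ : ℝ) : ℂ) * (((Real.sqrt (2 * Real.pi))⁻¹ : ℝ) : ℂ)) *
          (Complex.exp (((i * θ : ℝ) : ℂ) * -I) * Complex.exp (((j * θ : ℝ) : ℂ) * I)) := by ring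
      _ = _ := by
        rw [hs, ← Complex.exp_add]
        congr 2
        push_cast
        ring
  simp only [h2]
  unfold μ
  rw [← intervalIntegral.integral_of_le (by positivity), intervalIntegral.integral_const_mul]
  by_cases h : i = j
  · subst h
    rw [if_pos rfl]
    simp only [sub_self, Complex.ofReal_zero, zero_mul, Complex.exp_zero, intervalIntegral.integral_const, sub_zero]
    have : ((2 * Real.pi : ℝ) : ℂ) ≠ 0 := by
      have := Real.pi_pos
      exact_mod_cast (by positivity : (2 * Real.pi) ≠ 0)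
    rw [Complex.real_smul, mul_one]
    exact inv_mul_cancel₀ this
  · rw [if_neg h]
    have hne : ((((j : ℝ) - i : ℝ) : ℂ) * I) ≠ 0 := by
      apply mul_ne_zero _ Complex.I_ne_zero
      have : ((j : ℝ) - i) ≠ 0 := by
        intro h2
        apply h
        have : (j : ℝ) = i := by linarith
        exact_mod_cast this.symm
      exact_mod_cast this
    rw [integral_exp_mul_complex hne]
    have : Complex.exp ((((j : ℝ) - i : ℝ) : ℂ) * I * ((2 * Real.pi : ℝ) : ℂ)) = 1 := by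
      rw [Complex.exp_eq_one_iff]
      refine ⟨(j : ℤ) - i, ?_⟩
      push_cast
      ring
    rw [this]
    simp

/-- the isometry from sequences to functions -/
noncomputable def J : L2 →ₗᵢ[ℂ] Lp ℂ 2 μ := orthonormal_E.orthogonalFamily.linearIsometry

lemma J_single (n : ℕ) (a : ℂ) : J (lp.single 2 n a) = a • E n := by
  unfold J
  rw [OrthogonalFamily.linearIsometry_apply_single]
  simp

/-- unilateral shift -/
lemma orthonormal_single (k : ℕ) : Orthonormal ℂ (fun n : ℕ => (lp.single 2 (n + k) (1 : ℂ) : L2)) := by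
  rw [orthonormal_iff_ite]
  intro i j
  rw [lp.inner_single_left]
  by_cases h : i = j
  · subst h
    simp
  · rw [if_neg h]
    simp [lp.single_apply, h]

/-- unilateral shift -/
noncomputable def S : L2 →ₗᵢ[ℂ] L2 := (orthonormal_single 1).orthogonalFamily.linearIsometry

lemma S_single (n : ℕ) (a : ℂ) : S (lp.single 2 n a) = lp.single 2 (n + 1) a := by
  unfold S
  rw [OrthogonalFamily.linearIsometry_apply_single]
  simp [← lp.single_smul]

/-- continuous linear maps agreeing on the unit vectors agree -/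
lemma ext_single {X : Type*} [NormedAddCommGroup X] [NormedSpace ℂ X] (A B : L2 →L[ℂ] X)
    (h : ∀ n, A (lp.single 2 n (1 : ℂ)) = B (lp.single 2 n (1 : ℂ))) (y : L2) : A y = B y := by
  have h1 : HasSum (fun n => (lp.single 2 n (y n) : L2)) y := lp.hasSum_single (by norm_num) y
  have h2 := A.hasSum h1
  have h3 := B.hasSum h1
  have h4 : ∀ n, A (lp.single 2 n (y n)) = B (lp.single 2 n (y n)) := by
    intro n
    have : (lp.single 2 n (y n) : L2) = (y n) • lp.single 2 n (1 : ℂ) := by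
      rw [← lp.single_smul]; simp
    rw [this, map_smul, map_smul, h n]
  simp only [h4] at h2
  exact h2.unique h3

lemma inner_zero_S (y : L2) : ⟪(lp.single 2 0 (1 : ℂ) : L2), S y⟫_ℂ = 0 := by
  have := ext_single ((innerSL ℂ (lp.single 2 0 (1 : ℂ) : L2)).comp S.toContinuousLinearMap) 0 (by
    intro n
    simp only [ContinuousLinearMap.coe_comp, Function.comp, LinearIsometry.coe_toContinuousLinearMap, innerSL_apply_apply]
    rw [S_single, lp.inner_single_left]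
    simp [lp.single_apply]) y
  simpa using this

/-- multiplier in `L^∞` -/
lemma memLp_u : MemLp (fun θ : ℝ => Complex.exp ((θ : ℂ) * I)) ∞ μ := by
  apply memLp_top_of_bound (C := 1)
  · exact (by fun_prop : Continuous fun θ : ℝ => Complex.exp ((θ : ℂ) * I)).aestronglyMeasurable
  · exact Eventually.of_forall fun θ => (Complex.norm_exp_ofReal_mul_I θ).le

/-- multiplication by the coordinate -/
noncomputable def M : Lp ℂ 2 μ →L[ℂ] Lp ℂ 2 μ :=
  (ContinuousLinearMap.mul ℂ ℂ).holderL μ ∞ 2 2 (memLp_u.toLp)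

lemma M_ae (f : Lp ℂ 2 μ) : M f =ᵐ[μ] fun θ => Complex.exp ((θ : ℂ) * I) * f θ := by
  have h1 : M f = (ContinuousLinearMap.mul ℂ ℂ).holder 2 (memLp_u.toLp) f := rfl
  rw [h1]
  filter_upwards [(ContinuousLinearMap.mul ℂ ℂ).coeFn_holder (r := 2) (memLp_u.toLp) f, memLp_u.coeFn_toLp] with θ h2 h3
  rw [h2, h3]
  rfl

lemma JS (y : L2) : J (S y) = M (J y) := by
  apply ext_single (J.toContinuousLinearMap.comp S.toContinuousLinearMap) (M.comp J.toContinuousLinearMap)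
  intro n
  simp only [ContinuousLinearMap.coe_comp, Function.comp, LinearIsometry.coe_toContinuousLinearMap]
  rw [S_single, J_single, J_single, one_smul, one_smul]
  apply Lp.ext
  filter_upwards [M_ae (E n), (memLp_ef n).coeFn_toLp, (memLp_ef (n + 1)).coeFn_toLp] with θ h1 h2 h3
  have h2' : E n θ = ef n θ := h2
  have h3' : E (n + 1) θ = ef (n + 1) θ := h3
  rw [h1, h2', h3']
  unfold ef
  rw [mul_left_comm, ← Complex.exp_add]
  congr 2
  push_cast
  ring

/-- the operator `P = 16 - (i/2)(1 - S)` -/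
noncomputable def P : L2 →L[ℂ] L2 := (16 : ℂ) • 1 - (I / 2 : ℂ) • (1 - S.toContinuousLinearMap)

lemma J_P_ae (y : L2) : J (P y) =ᵐ[μ] fun θ => p θ * J y θ := by
  have h1 : J (P y) = (16 : ℂ) • J y - (I / 2 : ℂ) • (J y - M (J y)) := by
    unfold P
    simp only [_root_.sub_apply, _root_.smul_apply, one_apply_eq_self, map_sub, map_smul,
      LinearIsometry.coe_toContinuousLinearMap, JS]
  rw [h1]
  filter_upwards [M_ae (J y), Lp.coeFn_sub ((16 : ℂ) • J y) ((I / 2 : ℂ) • (J y - M (J y))),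
    Lp.coeFn_smul (16 : ℂ) (J y), Lp.coeFn_smul (I / 2 : ℂ) (J y - M (J y)), Lp.coeFn_sub (J y) (M (J y))] with θ h2 h3 h4 h5 h6
  rw [h3, Pi.sub_apply, h4, h5, Pi.smul_apply, Pi.smul_apply, h6, Pi.sub_apply, h2]
  unfold p
  simp only [smul_eq_mul]
  ring

lemma J_P_pow_ae (y : L2) (n : ℕ) : J ((P ^ n) y) =ᵐ[μ] fun θ => p θ ^ n * J y θ := by
  induction n with
  | zero =>
    refine Eventually.of_forall fun θ => ?_
    simp
  | succ n ih =>
    rw [pow_succ', mul_apply_eq_comp]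
    filter_upwards [ih, J_P_ae ((P ^ n) y)] with θ h1 h2
    rw [h2, h1, pow_succ]
    ring

/-- Jensen -/
lemma jensen (q : Polynomial ℂ) (h0 : q.coeff 0 ≠ 0) :
    2 * Real.pi * Real.log ‖q.coeff 0‖ ≤ ∫ θ in Ioc 0 (2 * Real.pi), Real.log ‖q.eval (Complex.exp (θ * I))‖ := by
  have hq : q ≠ 0 := by rintro rfl; simp at h0
  have h1 := Polynomial.norm_coeff_le_choose_mul_mahlerMeasure 0 q
  simp only [Nat.choose_zero_right, Nat.cast_one, one_mul] at h1
  have h2 : Real.log ‖q.coeff 0‖ ≤ q.logMahlerMeasure := by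
    rw [Polynomial.logMahlerMeasure_eq_log_MahlerMeasure]
    exact Real.log_le_log (norm_pos_iff.mpr h0) h1
  rw [Polynomial.logMahlerMeasure_def, Real.circleAverage_def] at h2
  rw [← intervalIntegral.integral_of_le (by positivity)]
  have h3 : ∫ θ in (0 : ℝ)..2 * Real.pi, Real.log ‖q.eval (Complex.exp (θ * I))‖ =
      ∫ θ in (0 : ℝ)..2 * Real.pi, Real.log ‖q.eval (circleMap 0 1 θ)‖ := by
    apply intervalIntegral.integral_congr
    intro θ _
    simp [circleMap]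
  rw [h3]
  have hpi : 0 < 2 * Real.pi := by positivity
  rw [smul_eq_mul, inv_mul_eq_div, le_div_iff₀ hpi] at h2
  linarith

lemma log_integrable (q : Polynomial ℂ) :
    Integrable (fun θ : ℝ => Real.log ‖q.eval (Complex.exp (θ * I))‖) μ := by
  have h1 := Polynomial.intervalIntegrable_mahlerMeasure (p := q)
  rw [intervalIntegrable_iff_integrableOn_Ioc_of_le (by positivity)] at h1
  unfold μ
  refine h1.congr (Eventually.of_forall fun θ => ?_)
  simp [circleMap]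

lemma eval_ne_zero_ae (q : Polynomial ℂ) (hq : q ≠ 0) : ∀ᵐ θ : ℝ ∂μ, q.eval (Complex.exp (θ * I)) ≠ 0 := by
  have h1 : {z : ℂ | q.eval z = 0}.Finite := by
    have := q.roots.toFinset.finite_toSet
    refine this.subset fun z hz => ?_
    simp only [Finset.mem_coe, Multiset.mem_toFinset]
    exact (Polynomial.mem_roots hq).mpr hz
  have h2 : (circleMap 0 1 ⁻¹' {z : ℂ | q.eval z = 0}).Countable :=
    h1.countable.preimage_circleMap 0 one_ne_zero
  have h3 : ∀ᵐ θ : ℝ ∂volume, θ ∉ circleMap 0 1 ⁻¹' {z : ℂ | q.eval z = 0} :=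
    h2.ae_notMem volume
  unfold μ
  filter_upwards [ae_restrict_of_ae h3] with θ hθ h
  apply hθ
  simp only [mem_preimage, mem_ofPred_eq]
  simpa [circleMap] using h

/-- partial sums -/
noncomputable def ps (y : L2) (N : ℕ) (θ : ℝ) : ℂ := ∑ k ∈ Finset.range N, y k * ef k θ

lemma ps_cont (y : L2) (N : ℕ) : Continuous (ps y N) := by
  unfold ps
  have := ef_cont
  fun_prop

/-- partial sums as elements of `L²` -/
noncomputable def PS (y : L2) (N : ℕ) : Lp ℂ 2 μ := ∑ k ∈ Finset.range N, (y k) • E k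

lemma PS_ae (y : L2) (N : ℕ) : PS y N =ᵐ[μ] ps y N := by
  unfold PS ps
  have h1 : ∀ᵐ θ ∂μ, ∀ k, (E k : ℝ → ℂ) θ = ef k θ := ae_all_iff.mpr fun k => (memLp_ef k).coeFn_toLp
  induction N with
  | zero =>
    simp only [Finset.range_zero, Finset.sum_empty]
    exact Lp.coeFn_zero _ _ _
  | succ N ih =>
    rw [Finset.sum_range_succ]
    filter_upwards [Lp.coeFn_add (∑ k ∈ Finset.range N, (y k) • E k) ((y N) • E N), ih, Lp.coeFn_smul (y N) (E N), h1] with θ h2 h3 h4 h5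
    rw [h2, Pi.add_apply, h3, h4, Pi.smul_apply, h5 N, Finset.sum_range_succ, smul_eq_mul]

lemma PS_tendsto (y : L2) : Tendsto (PS y) atTop (𝓝 (J y)) := by
  have h1 := orthonormal_E.orthogonalFamily.hasSum_linearIsometry y
  have h2 := h1.tendsto_sum_nat
  refine h2.congr fun N => ?_
  unfold PS
  apply Finset.sum_congr rfl
  intro k _
  simp

/-- shifted polynomial -/
noncomputable def qq (y : L2) (m N : ℕ) : Polynomial ℂ := ∑ j ∈ Finset.range N, Polynomial.C (y (m + j)) * Polynomial.X ^ j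

lemma qq_coeff (y : L2) (m N : ℕ) : (qq y m (N + 1)).coeff 0 = y m := by
  unfold qq
  rw [Polynomial.finsetSum_coeff, Finset.sum_range_succ']
  simp

lemma norm_ps (y : L2) (m N : ℕ) (hm : ∀ k < m, y k = 0) (θ : ℝ) :
    ‖ps y (m + N) θ‖ = (Real.sqrt (2 * Real.pi))⁻¹ * ‖(qq y m N).eval (Complex.exp (θ * I))‖ := by
  have h1 : ps y (m + N) θ = ef m θ * (qq y m N).eval (Complex.exp (θ * I)) := by
    unfold ps qq
    rw [Finset.sum_range_add, Finset.sum_eq_zero, zero_add, Polynomial.eval_finsetSum, Finset.mul_sum]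
    · apply Finset.sum_congr rfl
      intro j _
      simp only [Polynomial.eval_mul, Polynomial.eval_C, Polynomial.eval_pow, Polynomial.eval_X]
      unfold ef
      rw [← Complex.exp_nat_mul]
      have : Complex.exp ((((m + j : ℕ) * θ : ℝ) : ℂ) * I) = Complex.exp (((m * θ : ℝ) : ℂ) * I) * Complex.exp (j * (θ * I)) := by
        rw [← Complex.exp_add]
        congr 1
        push_cast
        ring
      rw [this]
      ring
    · intro k hk
      rw [hm k (Finset.mem_range.mp hk), zero_mul]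
  rw [h1, norm_mul, norm_ef]

lemma integral_log (y : L2) (m N : ℕ) (hm : ∀ k < m, y k = 0) (hym : y m ≠ 0) :
    Integrable (fun θ => Real.log (‖ps y (m + (N + 1)) θ‖ ^ 2)) μ ∧
    4 * Real.pi * Real.log ‖y m‖ - 2 * Real.pi * Real.log (2 * Real.pi) ≤
      ∫ θ, Real.log (‖ps y (m + (N + 1)) θ‖ ^ 2) ∂μ := by
  have hq0 : (qq y m (N + 1)).coeff 0 ≠ 0 := by rw [qq_coeff]; exact hym
  have hq : qq y m (N + 1) ≠ 0 := by intro h; rw [h] at hq0; simp at hq0
  have hpi : 0 < 2 * Real.pi := by positivity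
  have hae : (fun θ => Real.log (‖ps y (m + (N + 1)) θ‖ ^ 2)) =ᵐ[μ]
      fun θ => 2 * Real.log ‖(qq y m (N + 1)).eval (Complex.exp (θ * I))‖ - Real.log (2 * Real.pi) := by
    filter_upwards [eval_ne_zero_ae _ hq] with θ hθ
    rw [norm_ps y m (N + 1) hm θ, mul_pow, Real.log_mul, inv_pow, Real.sq_sqrt hpi.le, Real.log_inv, Real.log_pow]
    · push_cast; ring
    · positivity
    · exact pow_ne_zero 2 (norm_ne_zero_iff.mpr hθ)
  have hint := log_integrable (qq y m (N + 1))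
  refine ⟨?_, ?_⟩
  · apply Integrable.congr _ hae.symm
    exact (hint.const_mul 2).sub (integrable_const _)
  · rw [integral_congr_ae hae, integral_sub (hint.const_mul 2) (integrable_const _), integral_const_mul, integral_const]
    have h1 := jensen _ hq0
    rw [qq_coeff] at h1
    have h2 : μ.real univ = 2 * Real.pi := by
      unfold μ
      rw [measureReal_restrict_apply_univ, Real.volume_real_Ioc_of_le hpi.le, sub_zero]
    rw [h2, smul_eq_mul]
    have h3 : ∫ θ, Real.log ‖(qq y m (N + 1)).eval (Complex.exp (θ * I))‖ ∂μ =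
      ∫ θ in Ioc 0 (2 * Real.pi), Real.log ‖(qq y m (N + 1)).eval (Complex.exp (θ * I))‖ := rfl
    rw [h3]
    linarith

theorem nonzero_and_log (y : L2) (hy : y ≠ 0) :
    (∀ᵐ θ ∂μ, J y θ ≠ 0) ∧ ∫⁻ θ, ENNReal.ofReal (‖J y θ‖ ^ 2 - Real.log (‖J y θ‖ ^ 2)) ∂μ < ⊤ := by
  -- first nonzero coordinate
  have hex : ∃ m, y m ≠ 0 := by
    by_contra hcon
    push Not at hcon
    exact hy (lp.ext (funext hcon))
  classical
  obtain ⟨m, hm0, hm⟩ : ∃ m, y m ≠ 0 ∧ ∀ k < m, y k = 0 := by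
    refine ⟨Nat.find hex, Nat.find_spec hex, fun k hk => ?_⟩
    have := Nat.find_min hex hk
    push Not at this
    exact this
  -- convergence
  have ht : Tendsto (fun N => PS y (m + (N + 1))) atTop (𝓝 (J y)) := by
    have h1 : Tendsto (fun N : ℕ => m + (N + 1)) atTop atTop :=
      tendsto_atTop_mono (fun N => (by show N ≤ m + (N + 1); omega)) tendsto_id
    exact (PS_tendsto y).comp h1
  obtain ⟨B, hB⟩ : ∃ B : ℝ, ∀ N, ‖PS y (m + (N + 1))‖ ^ 2 ≤ B := by
    have h1 := (ht.norm.pow 2).bddAbove_range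
    obtain ⟨B, hB⟩ := h1
    exact ⟨B, fun N => hB ⟨N, rfl⟩⟩
  have hmeas := tendstoInMeasure_of_tendsto_Lp ht
  obtain ⟨ns, hns, hae⟩ := hmeas.exists_seq_tendsto_ae
  set C0 : ℝ := B - (4 * Real.pi * Real.log ‖y m‖ - 2 * Real.pi * Real.log (2 * Real.pi)) with hC0
  have hmain := fatou_log μ (fun n => ps y (m + (ns n + 1))) (fun n => (ps_cont y _).measurable) ?_ (J y) ?_
    (ENNReal.ofReal C0) ENNReal.ofReal_ne_top ?_
  · exact ⟨hmain.1, hmain.2.trans_lt ENNReal.ofReal_lt_top⟩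
  · rw [ae_all_iff]
    intro n
    have hq0 : (qq y m (ns n + 1)).coeff 0 ≠ 0 := by rw [qq_coeff]; exact hm0
    have hq : qq y m (ns n + 1) ≠ 0 := by intro h; rw [h] at hq0; simp at hq0
    filter_upwards [eval_ne_zero_ae _ hq] with θ hθ
    rw [← norm_pos_iff, norm_ps y m (ns n + 1) hm θ]
    have : 0 < ‖(qq y m (ns n + 1)).eval (Complex.exp (θ * I))‖ := norm_pos_iff.mpr hθ
    positivity
  · have h1 : ∀ᵐ θ ∂μ, ∀ n, (PS y (m + (ns n + 1)) : ℝ → ℂ) θ = ps y (m + (ns n + 1)) θ :=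
      ae_all_iff.mpr fun n => PS_ae y _
    filter_upwards [hae, h1] with θ h2 h3
    refine h2.congr fun n => ?_
    exact h3 n
  · intro n
    have hPS := PS_ae y (m + (ns n + 1))
    have hsq : Integrable (fun θ => ‖ps y (m + (ns n + 1)) θ‖ ^ 2) μ := by
      have h1 : MemLp (PS y (m + (ns n + 1)) : ℝ → ℂ) 2 μ := Lp.memLp _
      have h2 := h1.integrable_norm_pow (by norm_num)
      refine h2.congr ?_
      filter_upwards [hPS] with θ hθ
      rw [hθ]
    have hsqi : ∫ θ, ‖ps y (m + (ns n + 1)) θ‖ ^ 2 ∂μ ≤ B := by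
      refine le_trans (le_of_eq ?_) (hB (ns n))
      have h1 : ((‖PS y (m + (ns n + 1))‖ ^ 2 : ℝ) : ℂ) = ⟪PS y (m + (ns n + 1)), PS y (m + (ns n + 1))⟫_ℂ := by
        rw [inner_self_eq_norm_sq_to_K]
        push_cast
        rfl
      rw [MeasureTheory.L2.inner_def] at h1
      have h2 : ∫ a, ⟪PS y (m + (ns n + 1)) a, PS y (m + (ns n + 1)) a⟫_ℂ ∂μ = ((∫ θ, ‖ps y (m + (ns n + 1)) θ‖ ^ 2 ∂μ : ℝ) : ℂ) := by
        rw [← integral_complex_ofReal]
        apply integral_congr_ae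
        filter_upwards [hPS] with θ hθ
        rw [hθ, inner_self_eq_norm_sq_to_K]
        push_cast
        rfl
      rw [h2] at h1
      exact_mod_cast h1.symm
    obtain ⟨hl1, hl2⟩ := integral_log y m (ns n) hm hm0
    have hsl : Integrable (fun θ => ‖ps y (m + (ns n + 1)) θ‖ ^ 2 - Real.log (‖ps y (m + (ns n + 1)) θ‖ ^ 2)) μ :=
      hsq.sub hl1
    rw [← ofReal_integral_eq_lintegral_ofReal hsl]
    · apply ENNReal.ofReal_le_ofReal
      rw [integral_sub hsq hl1]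
      linarith
    · refine Eventually.of_forall fun θ => ?_
      show 0 ≤ ‖ps y (m + (ns n + 1)) θ‖ ^ 2 - Real.log (‖ps y (m + (ns n + 1)) θ‖ ^ 2)
      have := Real.log_le_self (show 0 ≤ ‖ps y (m + (ns n + 1)) θ‖ ^ 2 by positivity)
      linarith

lemma one_le_two_pi : (1 : ℝ) ≤ 2 * Real.pi := by
  have := Real.pi_gt_three
  linarith

lemma μ_restrict : μ.restrict (Ioc 0 1) = volume.restrict (Ioc (0 : ℝ) 1) := by
  unfold μ
  rw [Measure.restrict_restrict measurableSet_Ioc]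
  congr 1
  exact inter_eq_left.mpr (Ioc_subset_Ioc_right one_le_two_pi)

/-- cut-off of an `L²` function -/
noncomputable def cut (f : Lp ℂ 2 μ) : Lp ℂ 2 μ := ((Lp.memLp f).indicator (measurableSet_Ioc (a := (0 : ℝ)) (b := 1))).toLp

lemma inner_cut (f h : Lp ℂ 2 μ) :
    (⟪cut f, h⟫_ℂ).re = ∫ θ in Ioc 0 1, (starRingEnd ℂ (f θ) * h θ).re := by
  have hint := MeasureTheory.L2.integrable_inner (𝕜 := ℂ) (cut f) h
  rw [MeasureTheory.L2.inner_def]
  have h1 : (∫ a, ⟪cut f a, h a⟫_ℂ ∂μ).re = ∫ a, (⟪cut f a, h a⟫_ℂ).re ∂μ := (integral_re hint).symm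
  rw [h1, ← μ_restrict, ← integral_indicator measurableSet_Ioc]
  apply integral_congr_ae
  have h2 : ∀ᵐ θ ∂μ, cut f θ = (Ioc (0 : ℝ) 1).indicator f θ := MemLp.coeFn_toLp _
  filter_upwards [h2] with θ h3
  rw [h3]
  by_cases hθ : θ ∈ Ioc (0 : ℝ) 1
  · rw [indicator_of_mem hθ, indicator_of_mem hθ, RCLike.inner_apply, mul_comm]
  · rw [indicator_of_notMem hθ, indicator_of_notMem hθ]
    simp

theorem not_dense_generic {H : Type*} [NormedAddCommGroup H] [InnerProductSpace ℂ H] (P : H →L[ℂ] H)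
    (J : H →ₗᵢ[ℂ] Lp ℂ 2 μ) (y : H)
    (hJP : ∀ n : ℕ, J ((P ^ n) y) =ᵐ[μ] fun θ => p θ ^ n * J y θ)
    (hnz : ∀ᵐ θ ∂μ, J y θ ≠ 0)
    (hlog : ∫⁻ θ, ENNReal.ofReal (‖J y θ‖ ^ 2 - Real.log (‖J y θ‖ ^ 2)) ∂μ < ⊤) :
    ¬ Dense (convexHull ℝ (Set.range fun n : ℕ => (P ^ n) y)) := by
  intro hd
  set f := J y with hf
  -- mass density
  have hsub : Ioc (0 : ℝ) 1 ⊆ Ioc 0 (2 * Real.pi) := Ioc_subset_Ioc_right one_le_two_pi
  have hg : IntegrableOn (fun θ => ‖f θ‖ ^ 2) (Ioc 0 1) := by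
    have h1 : Integrable (fun θ => ‖f θ‖ ^ 2) μ := (Lp.memLp f).integrable_norm_pow (by norm_num)
    unfold μ at h1
    exact IntegrableOn.mono_set h1 hsub
  have hpos : ∀ᵐ θ ∂(volume.restrict (Ioc (0 : ℝ) 1)), 0 < ‖f θ‖ ^ 2 := by
    have h1 : ∀ᵐ θ ∂(volume.restrict (Ioc (0 : ℝ) 1)), f θ ≠ 0 := by
      rw [← μ_restrict]
      exact ae_restrict_of_ae hnz
    filter_upwards [h1] with θ hθ
    exact pow_pos (norm_pos_iff.mpr hθ) 2
  have hlogi : IntegrableOn (fun θ => ‖f θ‖ ^ 2 - Real.log (‖f θ‖ ^ 2)) (Ioc 0 1) := by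
    have h1 : Integrable (fun θ => ‖f θ‖ ^ 2 - Real.log (‖f θ‖ ^ 2)) μ := by
      refine ⟨?_, ?_⟩
      · have h2 : AEMeasurable (fun θ => ‖f θ‖) μ := (Lp.aestronglyMeasurable f).norm.aemeasurable
        have h3 : AEMeasurable (fun θ => ‖f θ‖ ^ 2 - Real.log (‖f θ‖ ^ 2)) μ := by fun_prop
        exact h3.aestronglyMeasurable
      · rw [hasFiniteIntegral_iff_ofReal]
        · exact hlog
        · refine Eventually.of_forall fun θ => ?_
          show 0 ≤ ‖f θ‖ ^ 2 - Real.log (‖f θ‖ ^ 2)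
          have := Real.log_le_self (show 0 ≤ ‖f θ‖ ^ 2 by positivity)
          linarith
    unfold μ at h1
    exact IntegrableOn.mono_set h1 hsub
  obtain ⟨C, hC⟩ := key (fun θ => ‖f θ‖ ^ 2) hg (fun θ => by positivity) hpos hlogi
  -- the functional
  set ψ : H → ℝ := fun h => (⟪cut f, J h⟫_ℂ).re with hψ
  have hψc : Continuous ψ := by
    rw [hψ]
    have := J.continuous
    fun_prop
  have hψl : IsLinearMap ℝ ψ := by
    constructor
    · intro a b
      simp only [hψ, map_add, inner_add_right, Complex.add_re]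
    · intro c a
      have : J (c • a) = (c : ℂ) • J a := by
        rw [← map_smul]
        rfl
      simp only [hψ, this, inner_smul_right, Complex.re_ofReal_mul, smul_eq_mul]
  have hsubset : closure (convexHull ℝ (Set.range fun n : ℕ => (P ^ n) y)) ⊆ {h | -C ≤ ψ h} := by
    apply closure_minimal
    · apply convexHull_min
      · rintro _ ⟨n, rfl⟩
        show -C ≤ ψ ((P ^ n) y)
        refine (hC n).trans (le_of_eq ?_)
        simp only [hψ]
        rw [inner_cut]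
        apply integral_congr_ae
        have h1 : ∀ᵐ θ ∂(volume.restrict (Ioc (0 : ℝ) 1)), J ((P ^ n) y) θ = p θ ^ n * f θ := by
          rw [← μ_restrict]
          exact ae_restrict_of_ae (hJP n)
        filter_upwards [h1] with θ hθ
        rw [hθ]
        have h2 : starRingEnd ℂ (f θ) * (p θ ^ n * f θ) = p θ ^ n * ((‖f θ‖ ^ 2 : ℝ) : ℂ) := by
          rw [← Complex.normSq_eq_norm_sq, ← Complex.mul_conj]
          ring
        rw [h2, Complex.re_mul_ofReal]
      · exact convex_halfSpace_ge hψl (-C)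
    · exact isClosed_le continuous_const hψc
  have hpos2 : 0 < ψ y := by
    simp only [hψ]
    rw [inner_cut]
    have h1 : ∫ θ in Ioc 0 1, (starRingEnd ℂ (f θ) * J y θ).re = ∫ θ in Ioc 0 1, ‖f θ‖ ^ 2 := by
      apply integral_congr_ae
      refine Eventually.of_forall fun θ => ?_
      show (starRingEnd ℂ (f θ) * f θ).re = ‖f θ‖ ^ 2
      rw [mul_comm, Complex.mul_conj, Complex.ofReal_re, Complex.normSq_eq_norm_sq]
    rw [h1]
    rw [integral_pos_iff_support_of_nonneg_ae (Eventually.of_forall fun θ => by positivity) hg]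
    by_contra hcon
    have hz : (volume.restrict (Ioc (0 : ℝ) 1)) (Function.support fun θ => ‖f θ‖ ^ 2) = 0 := by
      simpa using hcon
    have h2 : ∀ᵐ θ ∂(volume.restrict (Ioc (0 : ℝ) 1)), θ ∉ (Function.support fun θ => ‖f θ‖ ^ 2) := by
      exact measure_eq_zero_iff_ae_notMem.mp hz
    have h3 : ∀ᵐ θ ∂(volume.restrict (Ioc (0 : ℝ) 1)), False := by
      filter_upwards [h2, hpos] with θ ha hb
      exact ha (by simpa using hb.ne')
    rw [Filter.eventually_false_iff_eq_bot, ae_eq_bot] at h3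
    have h4 : (volume.restrict (Ioc (0 : ℝ) 1)) univ ≠ 0 := by
      rw [Measure.restrict_apply_univ, Real.volume_Ioc]
      simp
    exact h4 (by rw [h3]; rfl)
  -- contradiction
  have hall : ∀ h : H, -C ≤ ψ h := by
    intro h
    have := hd h
    exact hsubset this
  have h1 := hall ((-((|C| + 1) / ψ y) : ℝ) • y)
  rw [hψl.map_smul, smul_eq_mul, neg_mul, div_mul_cancel₀ _ hpos2.ne'] at h1
  have := le_abs_self C
  linarith

theorem dense_generic {H : Type*} [NormedAddCommGroup H] [InnerProductSpace ℂ H] [CompleteSpace H]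
    (S : H →L[ℂ] H) (hS : ‖S‖ ≤ 1) (hiso : ∀ x, ‖S x‖ = ‖x‖) (e0 : H)
    (horth : ∀ x, ⟪e0, S x⟫_ℂ = 0)
    (hdense : ∀ g : H, (∀ n : ℕ, ⟪g, (S ^ n) e0⟫_ℂ = 0) → g = 0) (T : H →L[ℂ] H)
    (hT : T = (I / 2 : ℂ) • (1 - S) - (16 : ℂ) • 1) :
    Dense (convexHull ℝ (Set.range fun n : ℕ => (T ^ n) e0)) := by
  set W : Set H := closure (convexHull ℝ (Set.range fun n : ℕ => (T ^ n) e0)) with hW
  have hWcl : IsClosed W := isClosed_closure
  have hWconv : Convex ℝ W := (convex_convexHull ℝ _).closure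
  have hWe : e0 ∈ W := subset_closure (subset_convexHull ℝ _ ⟨0, by simp⟩)
  have hTW : ∀ w ∈ W, T w ∈ W := by
    have h1 : MapsTo T (convexHull ℝ (Set.range fun n : ℕ => (T ^ n) e0)) (convexHull ℝ (Set.range fun n : ℕ => (T ^ n) e0)) := by
      intro z hz
      have h2 : (T.restrictScalars ℝ).toLinearMap '' (convexHull ℝ (Set.range fun n : ℕ => (T ^ n) e0)) =
          convexHull ℝ ((T.restrictScalars ℝ).toLinearMap '' (Set.range fun n : ℕ => (T ^ n) e0)) :=
        LinearMap.image_convexHull _ _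
      have h3 : (T.restrictScalars ℝ).toLinearMap z ∈ convexHull ℝ ((T.restrictScalars ℝ).toLinearMap '' (Set.range fun n : ℕ => (T ^ n) e0)) := by
        rw [← h2]; exact ⟨z, hz, rfl⟩
      refine convexHull_mono ?_ h3
      rintro _ ⟨_, ⟨n, rfl⟩, rfl⟩
      exact ⟨n + 1, by simp only [pow_succ' T, mul_apply_eq_comp]; rfl⟩
    intro w hw
    exact map_mem_closure T.continuous hw h1
  have hN : ∀ w, ‖(T.restrictScalars ℝ) w + (16 : ℝ) • w‖ ≤ ‖w‖ := by
    intro w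
    have e : (T.restrictScalars ℝ) w + (16 : ℝ) • w = (I / 2 : ℂ) • (w - S w) := by
      rw [ContinuousLinearMap.coe_restrictScalars', hT]
      simp only [_root_.sub_apply, _root_.smul_apply, one_apply_eq_self]
      have : (16 : ℝ) • w = (16 : ℂ) • w := by
        rw [← Complex.coe_smul (16 : ℝ) w]; norm_num
      rw [this]
      abel
    rw [e, norm_smul]
    have h1 : ‖(I / 2 : ℂ)‖ = 1 / 2 := by simp
    have h2 : ‖w - S w‖ ≤ 2 * ‖w‖ := by
      calc _ ≤ ‖w‖ + ‖S w‖ := norm_sub_le _ _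
        _ = 2 * ‖w‖ := by rw [hiso]; ring
    rw [h1]
    linarith
  have hsm : ∀ w ∈ W, ∀ c : ℝ, c • w ∈ W := fun w hw c => A.smul_mem hWcl hWconv (T.restrictScalars ℝ) hTW hN hw c
  have hadd : ∀ w ∈ W, ∀ z ∈ W, w + z ∈ W := by
    intro w hw z hz
    have h1 : (1 / 2 : ℝ) • w + (1 / 2 : ℝ) • z ∈ W := hWconv hw hz (by norm_num) (by norm_num) (by norm_num)
    have h2 := hsm _ h1 2
    rw [smul_add, smul_smul, smul_smul] at h2
    norm_num at h2
    exact h2
  have hpow : ∀ n : ℕ, (((I / 2 : ℂ) • (1 - S)) ^ n) e0 ∈ W := by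
    intro n
    induction n with
    | zero => simpa using hWe
    | succ n ih =>
      rw [pow_succ', mul_apply_eq_comp]
      set z := (((I / 2 : ℂ) • (1 - S)) ^ n) e0 with hz
      have e : ((I / 2 : ℂ) • (1 - S)) z = T z + (16 : ℝ) • z := by
        rw [hT]
        simp only [_root_.sub_apply, _root_.smul_apply, one_apply_eq_self]
        have : (16 : ℝ) • z = (16 : ℂ) • z := by
          rw [← Complex.coe_smul (16 : ℝ) z]; norm_num
        rw [this]
        abel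
      rw [e]
      exact hadd _ (hTW _ ih) _ (hsm _ ih 16)
  rw [dense_iff_closure_eq, ← hW]
  by_contra hne
  obtain ⟨x, hx⟩ := (ne_univ_iff_exists_notMem W).mp hne
  obtain ⟨f, u, hf1, hf2⟩ := RCLike.geometric_hahn_banach_closed_point (𝕜 := ℂ) hWconv hWcl hx
  have hre : ∀ a ∈ W, (f a).re = 0 := by
    intro a ha
    by_contra hne0
    have h1 := hf1 _ (hsm a ha (u / (f a).re))
    have h2 : f ((u / (f a).re) • a) = ((u / (f a).re : ℝ) : ℂ) * f a := by
      rw [← Complex.coe_smul, map_smul, smul_eq_mul]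
    rw [h2] at h1
    have h3 : RCLike.re (((u / (f a).re : ℝ) : ℂ) * f a) = u := by
      show (((u / (f a).re : ℝ) : ℂ) * f a).re = u
      rw [Complex.re_ofReal_mul, div_mul_cancel₀ _ hne0]
    rw [h3] at h1
    exact lt_irrefl _ h1
  set v := (InnerProductSpace.toDual ℂ H).symm f with hv
  have hvf : ∀ a, ⟪v, a⟫_ℂ = f a := fun a => InnerProductSpace.toDual_symm_apply
  have hv0 : v = 0 := by
    apply B.realcyclic S hS hiso v e0 horth hdense
    intro n
    rw [hvf]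
    exact hre _ (hpow n)
  have hf0 : ∀ a, f a = 0 := by
    intro a
    rw [← hvf, hv0, inner_zero_left]
  have h1 := hf1 e0 hWe
  rw [hf0] at h1 hf2
  exact lt_asymm h1 hf2

lemma S_pow_single (n : ℕ) : (S.toContinuousLinearMap ^ n) (lp.single 2 0 (1 : ℂ) : L2) = lp.single 2 n (1 : ℂ) := by
  induction n with
  | zero => simp
  | succ n ih =>
    rw [pow_succ', mul_apply_eq_comp, ih]
    exact S_single n 1

lemma total_single (g : L2) (h : ∀ n : ℕ, ⟪g, (S.toContinuousLinearMap ^ n) (lp.single 2 0 (1 : ℂ) : L2)⟫_ℂ = 0) :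
    g = 0 := by
  apply lp.ext
  funext n
  have h1 := h n
  rw [S_pow_single, lp.inner_single_right] at h1
  simpa using h1

end D

end PartC

open D in
/-- There is a bounded operator `T` on `ℓ²(ℕ, ℂ)` which is convex-cyclic while `-T` is not. -/
theorem exists_operator : ∃ T : lp (fun _ : ℕ => ℂ) 2 →L[ℂ] lp (fun _ : ℕ => ℂ) 2,
    IsConvexCyclic T ∧ ¬ IsConvexCyclic (-T) := by
  refine ⟨-P, ⟨lp.single 2 0 (1 : ℂ), ?_⟩, ?_⟩
  · exact dense_generic S.toContinuousLinearMap (LinearIsometry.norm_toContinuousLinearMap_le S) (fun x => S.norm_map x)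
      (lp.single 2 0 (1 : ℂ)) inner_zero_S total_single (-P) (by unfold P; abel)
  · rintro ⟨y, hy⟩
    rw [neg_neg] at hy
    by_cases h0 : y = 0
    · have h1 : (Set.range fun n : ℕ => (P ^ n) y) = {0} := by
        rw [h0]
        simp [Set.range_const]
      rw [h1, convexHull_singleton, dense_iff_closure_eq, closure_singleton] at hy
      have h2 : (lp.single 2 0 (1 : ℂ) : L2) ∈ ({0} : Set L2) := by rw [hy]; trivial
      have h3 : (lp.single 2 0 (1 : ℂ) : L2) = 0 := h2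
      have h4 := congrArg (fun z : L2 => z 0) h3
      simp at h4
    · obtain ⟨h1, h2⟩ := nonzero_and_log y h0
      exact not_dense_generic P J y (J_P_pow_ae y) h1 h2 hy

/-- On the Hilbert space `ℓ²(ℕ, ℂ)` convex-cyclicity is not preserved under `T ↦ -T`. -/
theorem result : ¬ NegPreservesConvexCyclic (lp (fun _ : ℕ => ℂ) 2) := by
  intro h
  obtain ⟨T, h1, h2⟩ := exists_operator
  exact h2 (h T h1)

end Pool.H88.MV.ConvexCyclicNeg
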